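import Pool.Agent.Y304.U.Avc

/-!
# Upper Banach logarithmic density zero, and the averaging lemma
-/

set_option autoImplicit false

open Finset

namespace Pool.Agent.W5h34.CB

open Pool.Agent.Y958.U (QQ S_PW)
open Pool.Agent.Y304.U (ind ind_nonneg ind_le block low upp FF FF_nonneg FF_le)

/-- the logarithmic sum over a window -/
noncomputable def wl (E : Set ℕ) (Y W : ℕ) : ℝ := ∑ n ∈ Ioc Y W, ind E n / n

/-- upper Banach logarithmic density zero -/
def BZ (E : Set ℕ) : Prop := ∀ δ : ℝ, 0 < δ → ∃ ω Y₀ : ℕ, 2 ≤ ω ∧ 1 ≤ Y₀ ∧ ∀ Y W : ℕ, Y₀ ≤ Y → ω * Y ≤ W →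
  wl E Y W ≤ δ * Real.log ((W : ℝ) / Y)

lemma wl_nonneg (E : Set ℕ) (Y W : ℕ) : 0 ≤ wl E Y W :=
  sum_nonneg fun n _ => div_nonneg (ind_nonneg E n) (Nat.cast_nonneg n)

lemma ind_mono {E F : Set ℕ} (h : E ⊆ F) (n : ℕ) : ind E n ≤ ind F n := by
  by_cases hn : n ∈ E
  · have e1 : ind E n = 1 := by unfold ind; exact if_pos hn
    have e2 : ind F n = 1 := by unfold ind; exact if_pos (h hn)
    rw [e1, e2]
  · have e1 : ind E n = 0 := by unfold ind; exact if_neg hn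
    rw [e1]
    exact ind_nonneg F n

lemma wl_mono {E F : Set ℕ} (h : E ⊆ F) (Y W : ℕ) : wl E Y W ≤ wl F Y W :=
  sum_le_sum fun n _ => div_le_div_of_nonneg_right (ind_mono h n) (Nat.cast_nonneg n)

lemma BZ_sub {E F : Set ℕ} (h : E ⊆ F) (hF : BZ F) : BZ E := by
  intro δ hδ
  obtain ⟨ω, Y₀, h1, h2, h3⟩ := hF δ hδ
  exact ⟨ω, Y₀, h1, h2, fun Y W hY hW => (wl_mono h Y W).trans (h3 Y W hY hW)⟩

lemma BZ_union {E F : Set ℕ} (hE : BZ E) (hF : BZ F) : BZ (E ∪ F) := by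
  intro δ hδ
  obtain ⟨ω, Y₀, h1, h2, h3⟩ := hE (δ / 2) (by positivity)
  obtain ⟨ω', Y₀', h1', h2', h3'⟩ := hF (δ / 2) (by positivity)
  refine ⟨max ω ω', max Y₀ Y₀', h1.trans (le_max_left _ _), h2.trans (le_max_left _ _), fun Y W hY hW => ?_⟩
  have k1 := h3 Y W ((le_max_left _ _).trans hY) ((Nat.mul_le_mul_right _ (le_max_left _ _)).trans hW)
  have k2 := h3' Y W ((le_max_right _ _).trans hY) ((Nat.mul_le_mul_right _ (le_max_right _ _)).trans hW)
  have k3 : wl (E ∪ F) Y W ≤ wl E Y W + wl F Y W := by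
    unfold wl
    rw [← sum_add_distrib]
    refine sum_le_sum fun n _ => ?_
    rw [← add_div]
    refine div_le_div_of_nonneg_right ?_ (Nat.cast_nonneg n)
    by_cases hn : n ∈ E
    · have e1 : ind E n = 1 := by unfold ind; exact if_pos hn
      rw [e1]
      linarith [ind_le (E ∪ F) n, ind_nonneg F n]
    · by_cases hn' : n ∈ F
      · have e1 : ind F n = 1 := by unfold ind; exact if_pos hn'
        rw [e1]
        linarith [ind_le (E ∪ F) n, ind_nonneg E n]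
      · have e1 : ind (E ∪ F) n = 0 := by
          unfold ind
          exact if_neg fun h => h.elim hn hn'
        rw [e1]
        linarith [ind_nonneg E n, ind_nonneg F n]
  linarith

lemma log_nonneg' {ω Y W : ℕ} (h1 : 1 ≤ ω) (hY : 1 ≤ Y) (hW : ω * Y ≤ W) : 0 ≤ Real.log ((W : ℝ) / Y) := by
  apply Real.log_nonneg
  have hY0 : (0 : ℝ) < Y := by exact_mod_cast hY
  rw [le_div_iff₀ hY0, one_mul]
  have : Y ≤ W := by nlinarith
  exact_mod_cast this

lemma BZ_bdd (E : Set ℕ) (K : ℕ) (hK : ∀ n ∈ E, n < K) : BZ E := by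
  intro δ hδ
  refine ⟨2, max K 1, le_rfl, le_max_right _ _, fun Y W hY hW => ?_⟩
  have hY1 : 1 ≤ Y := (le_max_right _ _).trans hY
  have h0 : wl E Y W = 0 := by
    unfold wl
    apply sum_eq_zero
    intro n hn
    rw [mem_Ioc] at hn
    have e1 : ind E n = 0 := by
      unfold ind
      apply if_neg
      intro h
      have := hK n h
      have := (le_max_left K 1).trans hY
      omega
    rw [e1, zero_div]
  rw [h0]
  exact mul_nonneg hδ.le (log_nonneg' (by norm_num) hY1 hW)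

lemma BZ_empty : BZ (∅ : Set ℕ) := BZ_bdd _ 0 fun n hn => absurd hn (Set.notMem_empty n)

lemma BZ_fin {ι : Type} (s : Finset ι) (E : ι → Set ℕ) (h : ∀ i ∈ s, BZ (E i)) :
    BZ {n | ∃ i ∈ s, n ∈ E i} := by
  classical
  induction s using Finset.induction_on with
  | empty => simpa using BZ_empty
  | insert a s ha ih =>
    refine BZ_sub ?_ (BZ_union (h a (mem_insert_self a s)) (ih fun i hi => h i (mem_insert_of_mem hi)))
    rintro n ⟨i, hi, hn⟩
    rw [mem_insert] at hi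
    rcases hi with rfl | hi
    · exact Or.inl hn
    · exact Or.inr ⟨i, hi, hn⟩

/-- pull back along `N ↦ A (N + 1)` -/
lemma BZ_pull (E : Set ℕ) (A : ℕ) (hA : 1 ≤ A) (h : BZ E) : BZ {N | A * (N + 1) ∈ E} := by
  classical
  intro δ hδ
  have hA0 : (0 : ℝ) < A := by exact_mod_cast hA
  obtain ⟨ω, Y₀, h1, h2, h3⟩ := h (δ / (2 * A)) (by positivity)
  refine ⟨2 * ω, Y₀, by omega, h2, fun Y W hY hW => ?_⟩
  have hY1 : 1 ≤ Y := h2.trans hY
  have hYW : Y ≤ W := by nlinarith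
  have k1 : wl {N | A * (N + 1) ∈ E} Y W ≤ 2 * A * wl E (A * (Y + 1)) (A * (W + 1)) := by
    unfold wl
    rw [mul_sum]
    have h4 : ∑ n ∈ Ioc Y W, ind {N | A * (N + 1) ∈ E} n / (n : ℝ) ≤
        ∑ n ∈ Ioc Y W, 2 * A * (ind E (A * (n + 1)) / ((A * (n + 1) : ℕ) : ℝ)) := by
      refine sum_le_sum fun n hn => ?_
      rw [mem_Ioc] at hn
      have hn0 : (1 : ℝ) ≤ n := by exact_mod_cast (by omega : 1 ≤ n)
      have e : ind {N | A * (N + 1) ∈ E} n = ind E (A * (n + 1)) := rfl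
      rw [e]
      push_cast
      rw [mul_div_assoc', div_le_div_iff₀ (by linarith) (by positivity)]
      have := ind_nonneg E (A * (n + 1))
      nlinarith [mul_nonneg this hA0.le, mul_nonneg (mul_nonneg this hA0.le) (by linarith : (0:ℝ) ≤ (n : ℝ) - 1)]
    refine h4.trans ?_
    have h5 : ∑ n ∈ Ioc Y W, 2 * A * (ind E (A * (n + 1)) / ((A * (n + 1) : ℕ) : ℝ)) =
        ∑ M ∈ (Ioc Y W).image (fun n => A * (n + 1)), 2 * A * (ind E M / (M : ℝ)) := by
      rw [sum_image]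
      intro a _ b _ hab
      have := Nat.eq_of_mul_eq_mul_left (by omega : 0 < A) hab
      omega
    rw [h5]
    apply sum_le_sum_of_subset_of_nonneg
    · intro M hM
      rw [mem_image] at hM
      obtain ⟨n, hn, rfl⟩ := hM
      rw [mem_Ioc] at hn ⊢
      exact ⟨Nat.mul_lt_mul_of_pos_left (by omega) (by omega), Nat.mul_le_mul_left _ (by omega)⟩
    · intro M _ _
      have := ind_nonneg E M
      positivity
  have k2 := h3 (A * (Y + 1)) (A * (W + 1)) (by nlinarith) (by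
    have : ω * (Y + 1) ≤ W + 1 := by nlinarith
    nlinarith [Nat.mul_le_mul_left A this])
  have k3 : Real.log (((A * (W + 1) : ℕ) : ℝ) / ((A * (Y + 1) : ℕ) : ℝ)) ≤ Real.log ((W : ℝ) / Y) := by
    have hY0 : (0 : ℝ) < Y := by exact_mod_cast hY1
    have hWr : (Y : ℝ) ≤ W := by exact_mod_cast hYW
    apply Real.log_le_log
    · push_cast; positivity
    · push_cast
      rw [mul_div_mul_left _ _ hA0.ne', div_le_div_iff₀ (by positivity) hY0]
      nlinarith
  calc wl {N | A * (N + 1) ∈ E} Y W ≤ 2 * A * wl E (A * (Y + 1)) (A * (W + 1)) := k1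
    _ ≤ 2 * A * (δ / (2 * A) * Real.log (((A * (W + 1) : ℕ) : ℝ) / ((A * (Y + 1) : ℕ) : ℝ))) :=
        mul_le_mul_of_nonneg_left k2 (by positivity)
    _ = δ * Real.log (((A * (W + 1) : ℕ) : ℝ) / ((A * (Y + 1) : ℕ) : ℝ)) := by field_simp
    _ ≤ _ := mul_le_mul_of_nonneg_left k3 hδ.le

/-- push forward: the scales `N` with `N / q ∈ E` -/
lemma BZ_push (E : Set ℕ) (q : ℕ) (hq : 1 ≤ q) (h : BZ E) : BZ {N | N / q ∈ E} := by
  classical
  intro δ hδ
  have hq0 : (0 : ℝ) < q := by exact_mod_cast hq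
  obtain ⟨ω, Y₀, h1, h2, h3⟩ := h (δ / 2) (by positivity)
  refine ⟨4 * ω, q * (Y₀ + 2), by omega, by nlinarith, fun Y W hY hW => ?_⟩
  obtain ⟨y, hy⟩ : ∃ y, Y / q = y + 2 := by
    have : Y₀ + 2 ≤ Y / q := by
      rw [Nat.le_div_iff_mul_le (by omega), mul_comm]
      exact hY
    exact ⟨Y / q - 2, by omega⟩
  have hy0 : Y₀ ≤ y := by
    have : Y₀ + 2 ≤ Y / q := by
      rw [Nat.le_div_iff_mul_le (by omega), mul_comm]
      exact hY
    omega
  have hyq : q * (y + 2) ≤ Y := by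
    rw [← hy]; exact Nat.mul_div_le Y q
  have hYq : Y < q * (y + 3) := by
    have := Nat.lt_mul_div_succ Y (by omega : 0 < q)
    rw [hy] at this
    exact this
  have hY1 : 1 ≤ Y := by nlinarith
  have hYW : Y ≤ W := by nlinarith
  set w : ℕ := W / q with hw
  have hwq : q * w ≤ W := Nat.mul_div_le W q
  have hWq : W < q * (w + 1) := Nat.lt_mul_div_succ W (by omega)
  have hyw : ω * (y + 1) ≤ w := by
    have h4 : 4 * ω * (q * (y + 2)) < q * (w + 1) := by nlinarith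
    have h5 : 4 * ω * (y + 2) < w + 1 := by
      have : q * (4 * ω * (y + 2)) < q * (w + 1) := by nlinarith
      exact lt_of_mul_lt_mul_left this (Nat.zero_le _)
    nlinarith
  have k1 : wl {N | N / q ∈ E} Y W ≤ wl E (y + 1) w := by
    have h4 : wl {N | N / q ∈ E} Y W ≤ ∑ M ∈ Ico (y + 2) (w + 1), ∑ N ∈ Ico (q * M) (q * (M + 1)), ind E (N / q) / (N : ℝ) := by
      rw [← Finset.sum_biUnion]
      · unfold wl
        apply sum_le_sum_of_subset_of_nonneg
        · intro N hN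
          rw [mem_Ioc] at hN
          rw [mem_biUnion]
          refine ⟨N / q, ?_, ?_⟩
          · rw [mem_Ico]
            constructor
            · rw [← hy]; exact Nat.div_le_div_right hN.1.le
            · have : N / q ≤ W / q := Nat.div_le_div_right hN.2
              omega
          · rw [mem_Ico]
            exact ⟨Nat.mul_div_le N q, Nat.lt_mul_div_succ N (by omega)⟩
        · intro N _ _
          exact div_nonneg (ind_nonneg _ _) (Nat.cast_nonneg N)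
      · intro M _ M' _ hMM
        rw [Function.onFun, Finset.disjoint_left]
        intro N hN hN'
        rw [mem_Ico] at hN hN'
        apply hMM
        have e1 : N / q = M := Nat.div_eq_of_lt_le (by rw [mul_comm]; exact hN.1) (by rw [mul_comm]; exact hN.2)
        have e2 : N / q = M' := Nat.div_eq_of_lt_le (by rw [mul_comm]; exact hN'.1) (by rw [mul_comm]; exact hN'.2)
        rw [← e1, e2]
    refine h4.trans ?_
    have h5 : ∀ M ∈ Ico (y + 2) (w + 1), ∑ N ∈ Ico (q * M) (q * (M + 1)), ind E (N / q) / (N : ℝ) ≤ ind E M / M := by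
      intro M hM
      rw [mem_Ico] at hM
      have hM0 : (0 : ℝ) < M := by exact_mod_cast (by omega : 0 < M)
      have h6 : ∀ N ∈ Ico (q * M) (q * (M + 1)), ind E (N / q) / (N : ℝ) ≤ ind E M / (q * M) := by
        intro N hN
        rw [mem_Ico] at hN
        have e1 : N / q = M := Nat.div_eq_of_lt_le (by rw [mul_comm]; exact hN.1) (by rw [mul_comm]; exact hN.2)
        rw [e1]
        have : ((q : ℝ) * M) ≤ N := by exact_mod_cast hN.1
        exact div_le_div_of_nonneg_left (ind_nonneg E M) (by positivity) this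
      refine (Finset.sum_le_card_nsmul _ _ _ h6).trans (le_of_eq ?_)
      rw [Nat.card_Ico, show q * (M + 1) - q * M = q by rw [mul_add]; omega, nsmul_eq_mul]
      field_simp
    refine (sum_le_sum h5).trans (le_of_eq ?_)
    unfold wl
    apply sum_congr _ fun _ _ => rfl
    ext M
    rw [mem_Ico, mem_Ioc]
    omega
  have k2 := h3 (y + 1) w (by omega) hyw
  have k3 : Real.log ((w : ℝ) / ((y + 1 : ℕ) : ℝ)) ≤ 2 * Real.log ((W : ℝ) / Y) := by
    have hY0 : (0 : ℝ) < Y := by exact_mod_cast hY1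
    have hw1 : 0 < w := by
      have : 0 < ω * (y + 1) := by positivity
      omega
    have hw0 : (0 : ℝ) < w := by exact_mod_cast hw1
    have h4 : (w : ℝ) / ((y + 1 : ℕ) : ℝ) ≤ ((W : ℝ) / Y) ^ 2 := by
      have e1 : (q : ℝ) * w ≤ W := by exact_mod_cast hwq
      have e2 : (Y : ℝ) ≤ q * (y + 3) := by exact_mod_cast hYq.le
      have e3 : (3 : ℝ) ≤ W / Y := by
        rw [le_div_iff₀ hY0]
        have : 3 * Y ≤ W := by nlinarith
        exact_mod_cast this
      have e4 : (w : ℝ) / ((y + 1 : ℕ) : ℝ) ≤ 3 * (W / Y) := by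
        push_cast
        rw [mul_div_assoc', div_le_div_iff₀ (by positivity) hY0]
        have e5 : (w : ℝ) * Y ≤ w * (q * (y + 3)) := mul_le_mul_of_nonneg_left e2 hw0.le
        have e6 : (w : ℝ) * (q * (y + 3)) = (q * w) * (y + 3) := by ring
        have e7 : ((q : ℝ) * w) * (y + 3) ≤ W * (y + 3) := mul_le_mul_of_nonneg_right e1 (by positivity)
        have e8 : (W : ℝ) * (y + 3) ≤ 3 * W * (y + 1) := by
          have : (0 : ℝ) ≤ W * y := by positivity
          nlinarith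
        linarith
      calc (w : ℝ) / ((y + 1 : ℕ) : ℝ) ≤ 3 * (W / Y) := e4
        _ ≤ (W / Y) * (W / Y) := mul_le_mul_of_nonneg_right e3 (by positivity)
        _ = _ := by ring
    have h5 := Real.log_le_log (by positivity) h4
    rw [Real.log_pow] at h5
    push_cast at h5 ⊢
    exact h5
  calc wl {N | N / q ∈ E} Y W ≤ wl E (y + 1) w := k1
    _ ≤ δ / 2 * Real.log ((w : ℝ) / ((y + 1 : ℕ) : ℝ)) := k2
    _ ≤ δ / 2 * (2 * Real.log ((W : ℝ) / Y)) := mul_le_mul_of_nonneg_left k3 (by positivity)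
    _ = _ := by ring

/-! ### The averaging lemma -/

open Classical in
/-- if `E` does not have upper Banach logarithmic density zero, then for suitable arbitrarily large `M`
many of the numbers `M / p` belong to `E` -/
def S_AVCB : Prop := ∀ E E' : Set ℕ, ¬ BZ E → BZ E' → ∃ ε : ℝ, 0 < ε ∧ ∃ I₀ : ℕ, ∀ i₀ i₁ : ℕ,
  I₀ ≤ i₀ → i₀ < i₁ → ∀ M₀ : ℕ, ∃ M : ℕ, M₀ ≤ M ∧ M ∉ E' ∧
    ε * ∑ i ∈ Ico i₀ i₁, (1 : ℝ) / i ≤
      ∑ i ∈ Ico i₀ i₁, (1 : ℝ) / i * ∑ p ∈ QQ i, Real.log p / 2 ^ i * (if M / p ∈ E then 1 else 0)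

lemma win_log {Y W : ℕ} (hY : 1 ≤ Y) (h : Y ≤ W) : ∑ n ∈ Ioc Y W, (1 : ℝ) / n ≤ Real.log ((W : ℝ) / Y) := by
  have hY0 : (0 : ℝ) < Y := by exact_mod_cast hY
  induction W, h using Nat.le_induction with
  | base => simp [hY0.ne']
  | succ W hW ih =>
    have hW0 : (0 : ℝ) < W := by exact_mod_cast (by omega : 0 < W)
    rw [← Finset.insert_Ioc_right_eq_Ioc_add_one hW, sum_insert (by simp)]
    have h1 : Real.log (((W + 1 : ℕ) : ℝ) / Y) = Real.log ((W : ℝ) / Y) + (Real.log ((W : ℝ) + 1) - Real.log W) := by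
      push_cast
      rw [Real.log_div (by positivity) hY0.ne', Real.log_div hW0.ne' hY0.ne']
      ring
    have h2 : 1 / ((W : ℝ) + 1) ≤ Real.log ((W : ℝ) + 1) - Real.log W := by
      rw [← Real.log_div (by positivity) hW0.ne']
      have h3 := Real.one_sub_inv_le_log_of_pos (show 0 < ((W : ℝ) + 1) / W by positivity)
      refine le_trans (le_of_eq ?_) h3
      field_simp
      ring
    rw [h1]
    push_cast
    linarith

lemma wblocks (E : Set ℕ) {p Y W : ℕ} (hp : 1 ≤ p) (h : Y ≤ W) :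
    ∑ K ∈ Ioc Y W, ind E K / ((K : ℝ) + 1) ≤ ∑ M ∈ Ico (p * (Y + 1)) (p * (W + 1)), ind E (M / p) / M := by
  induction W, h using Nat.le_induction with
  | base => simp
  | succ W hW ih =>
    rw [← Finset.insert_Ioc_right_eq_Ioc_add_one hW, sum_insert (by simp)]
    have h1 := block E hp (K := W + 1) (by omega)
    have h2 : ∑ M ∈ Ico (p * (Y + 1)) (p * (W + 1 + 1)), ind E (M / p) / (M : ℝ) =
        ∑ M ∈ Ico (p * (Y + 1)) (p * (W + 1)), ind E (M / p) / (M : ℝ) +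
          ∑ M ∈ Ico (p * (W + 1)) (p * (W + 1 + 1)), ind E (M / p) / (M : ℝ) := by
      rw [Finset.sum_Ico_consecutive]
      · exact Nat.mul_le_mul_left _ (by omega)
      · exact Nat.mul_le_mul_left _ (by omega)
    rw [h2, add_comm]
    push_cast at h1 ⊢
    exact add_le_add ih h1

lemma wtele {Y W : ℕ} (h : Y ≤ W) : ∑ K ∈ Ioc Y W, ((1 : ℝ) / K - 1 / (K + 1)) ≤ 1 := by
  have h1 : ∑ K ∈ Ioc Y W, ((1 : ℝ) / K - 1 / (K + 1)) = 1 / (Y + 1) - 1 / (W + 1) := by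
    induction W, h using Nat.le_induction with
    | base => simp
    | succ W hW ih =>
      rw [← Finset.insert_Ioc_right_eq_Ioc_add_one hW, sum_insert (by simp), ih]
      push_cast
      ring
  rw [h1]
  have h2 : (0 : ℝ) ≤ 1 / (W + 1) := by positivity
  have h3 : (1 : ℝ) / (Y + 1) ≤ 1 := by
    rw [div_le_one (by positivity)]
    linarith [show (0 : ℝ) ≤ Y from Nat.cast_nonneg Y]
  linarith

lemma wlower (E : Set ℕ) {p Y W T : ℕ} (hp : 1 ≤ p) (hpT : p ≤ T) (h : Y ≤ W) :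
    wl E Y W - 1 ≤ ∑ M ∈ Ioc Y (T * (W + 1)), ind E (M / p) / (M : ℝ) := by
  have h1 : wl E Y W - ∑ K ∈ Ioc Y W, ind E K / ((K : ℝ) + 1) ≤ 1 := by
    refine le_trans ?_ (wtele h)
    unfold wl
    rw [← sum_sub_distrib]
    refine sum_le_sum fun K hK => ?_
    have hK0 : (0 : ℝ) < K := by exact_mod_cast (by have := (mem_Ioc.1 hK).1; omega : 0 < K)
    have h3 : (0 : ℝ) ≤ 1 / K - 1 / (K + 1) := by
      rw [sub_nonneg]
      exact one_div_le_one_div_of_le hK0 (by linarith)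
    have h4 : ind E K / (K : ℝ) - ind E K / ((K : ℝ) + 1) = ind E K * (1 / K - 1 / (K + 1)) := by
      ring
    rw [h4]
    exact mul_le_of_le_one_left h3 (ind_le E K)
  have h2 := wblocks E hp h
  have h3 : ∑ M ∈ Ico (p * (Y + 1)) (p * (W + 1)), ind E (M / p) / (M : ℝ) ≤
      ∑ M ∈ Ioc Y (T * (W + 1)), ind E (M / p) / (M : ℝ) := by
    apply sum_le_sum_of_subset_of_nonneg
    · intro M hM
      rw [mem_Ico] at hM
      rw [mem_Ioc]
      have h4 : p * (W + 1) ≤ T * (W + 1) := Nat.mul_le_mul_right _ hpT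
      have h5 : Y + 1 ≤ p * (Y + 1) := Nat.le_mul_of_pos_left _ hp
      omega
    · intro M _ _
      exact div_nonneg (ind_nonneg _ _) (Nat.cast_nonneg M)
  linarith

lemma FF_wlow (E : Set ℕ) {I₀ : ℕ} (hI : ∀ i, I₀ ≤ i → (1 / 8 : ℝ) ≤ ∑ p ∈ QQ i, Real.log p / 2 ^ i)
    {i₀ i₁ : ℕ} (h0 : I₀ ≤ i₀) {Y W : ℕ} (h : Y ≤ W) (hneg : 0 ≤ wl E Y W - 1) :
    1 / 8 * (∑ i ∈ Ico i₀ i₁, (1 : ℝ) / i) * (wl E Y W - 1) ≤
      ∑ M ∈ Ioc Y (2 ^ i₁ * (W + 1)), FF E i₀ i₁ M / M := by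
  have e : ∑ M ∈ Ioc Y (2 ^ i₁ * (W + 1)), FF E i₀ i₁ M / M = ∑ i ∈ Ico i₀ i₁, (1 : ℝ) / i *
      ∑ p ∈ QQ i, Real.log p / 2 ^ i * ∑ M ∈ Ioc Y (2 ^ i₁ * (W + 1)), ind E (M / p) / M := by
    unfold FF
    simp only [sum_div, mul_sum]
    rw [sum_comm]
    refine sum_congr rfl fun i _ => ?_
    rw [sum_comm]
    refine sum_congr rfl fun p _ => sum_congr rfl fun M _ => by ring
  rw [e, mul_right_comm, mul_comm, sum_mul]
  refine sum_le_sum fun i hi => mul_le_mul_of_nonneg_left ?_ (by positivity)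
  rw [mem_Ico] at hi
  have h1 : ∀ p ∈ QQ i, wl E Y W - 1 ≤ ∑ M ∈ Ioc Y (2 ^ i₁ * (W + 1)), ind E (M / p) / (M : ℝ) := by
    intro p hp
    unfold QQ at hp
    rw [mem_filter, mem_Ioc] at hp
    exact wlower E hp.2.one_lt.le (hp.1.2.trans (Nat.pow_le_pow_right (by norm_num) (by omega))) h
  calc 1 / 8 * (wl E Y W - 1) ≤
        (∑ p ∈ QQ i, Real.log p / 2 ^ i) * (wl E Y W - 1) :=
        mul_le_mul_of_nonneg_right (hI i (by omega)) hneg
    _ = ∑ p ∈ QQ i, Real.log p / 2 ^ i * (wl E Y W - 1) := by rw [sum_mul]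
    _ ≤ _ := sum_le_sum fun p hp => mul_le_mul_of_nonneg_left (h1 p hp)
        (div_nonneg (Real.log_natCast_nonneg p) (by positivity))

theorem avcb (h : S_PW) : S_AVCB := by
  intro E E' hE hE'
  obtain ⟨I₀, hI1, hI⟩ := low h
  obtain ⟨δ, hδ, hfr⟩ : ∃ δ : ℝ, 0 < δ ∧ ∀ ω Y₀ : ℕ, 2 ≤ ω → 1 ≤ Y₀ → ∃ Y W : ℕ, Y₀ ≤ Y ∧ ω * Y ≤ W ∧
      δ * Real.log ((W : ℝ) / Y) < wl E Y W := by
    unfold BZ at hE
    push Not at hE
    obtain ⟨δ, hδ, h1⟩ := hE
    exact ⟨δ, hδ, fun ω Y₀ h2 h3 => h1 ω Y₀ h2 h3⟩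
  refine ⟨δ / 64, by positivity, I₀, fun i₀ i₁ h0 h01 M₀ => ?_⟩
  by_contra hcon
  push Not at hcon
  set S : ℝ := ∑ i ∈ Ico i₀ i₁, (1 : ℝ) / i with hS
  have hS0 : 0 < S := by
    refine sum_pos (fun i hi => ?_) ⟨i₀, by rw [mem_Ico]; omega⟩
    rw [mem_Ico] at hi
    have : (0 : ℝ) < i := by exact_mod_cast (by omega : 0 < i)
    positivity
  have hF : ∀ M, M₀ ≤ M → M ∉ E' → FF E i₀ i₁ M ≤ δ / 64 * S := fun M h1 h2 =>
    (hcon M h1 h2).le
  obtain ⟨ω', Y', hω', hY', hE2⟩ := hE' (δ / 200) (by positivity)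
  obtain ⟨Y, W, hY, hW, hlt⟩ := hfr (max ω' (max (2 * 2 ^ i₁) ⌈Real.exp (3 / δ)⌉₊)) (max Y' M₀)
    (hω'.trans (le_max_left _ _)) (hY'.trans (le_max_left _ _))
  have hY1 : 1 ≤ Y := hY'.trans ((le_max_left _ _).trans hY)
  have hYM : M₀ ≤ Y := (le_max_right _ _).trans hY
  have hW1 : ω' * Y ≤ W := (Nat.mul_le_mul_right _ (le_max_left _ _)).trans hW
  have hW2 : 2 * 2 ^ i₁ * Y ≤ W :=
    (Nat.mul_le_mul_right _ ((le_max_left _ _).trans (le_max_right _ _))).trans hW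
  have hW3 : ⌈Real.exp (3 / δ)⌉₊ * Y ≤ W :=
    (Nat.mul_le_mul_right _ ((le_max_right _ _).trans (le_max_right _ _))).trans hW
  have hT1 : 1 ≤ 2 ^ i₁ := Nat.one_le_two_pow
  have hYW : Y ≤ W := by nlinarith
  have hY0 : (0 : ℝ) < Y := by exact_mod_cast hY1
  have hWr : (Y : ℝ) ≤ W := by exact_mod_cast hYW
  have hW0 : (0 : ℝ) < W := by linarith
  set ℓ : ℝ := Real.log ((W : ℝ) / Y) with hℓ
  have hL : 3 / δ ≤ ℓ := by
    rw [hℓ, Real.le_log_iff_exp_le (by positivity), le_div_iff₀ hY0]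
    have h1 : ((⌈Real.exp (3 / δ)⌉₊ * Y : ℕ) : ℝ) ≤ W := by exact_mod_cast hW3
    push_cast at h1
    refine le_trans ?_ h1
    exact mul_le_mul_of_nonneg_right (Nat.le_ceil _) hY0.le
  have hδL : 3 ≤ δ * ℓ := by
    rw [div_le_iff₀ hδ] at hL
    linarith
  set W' : ℕ := 2 ^ i₁ * (W + 1) with hW'
  have hWW' : W ≤ W' := by rw [hW']; nlinarith
  have hlog' : Real.log ((W' : ℝ) / Y) ≤ 2 * ℓ := by
    have h1 : (W' : ℝ) / Y ≤ ((W : ℝ) / Y) ^ 2 := by
      have h2 : (2 * 2 ^ i₁ : ℝ) ≤ (W : ℝ) / Y := by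
        rw [le_div_iff₀ hY0]
        exact_mod_cast hW2
      have h3 : (W' : ℝ) ≤ 2 * 2 ^ i₁ * W := by
        have : W' ≤ 2 * 2 ^ i₁ * W := by
          rw [hW']
          nlinarith
        exact_mod_cast this
      calc (W' : ℝ) / Y ≤ 2 * 2 ^ i₁ * W / Y := div_le_div_of_nonneg_right h3 hY0.le
        _ = (2 * 2 ^ i₁) * (W / Y) := by ring
        _ ≤ (W / Y) * (W / Y) := mul_le_mul_of_nonneg_right h2 (by positivity)
        _ = _ := by ring
    have hpos : (0 : ℝ) < (W' : ℝ) / Y := by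
      have : (0 : ℝ) < W' := by exact_mod_cast (by omega : 0 < W')
      positivity
    have h2 := Real.log_le_log hpos h1
    rw [Real.log_pow] at h2
    push_cast at h2
    exact h2
  -- the upper bound
  have hup : ∑ M ∈ Ioc Y W', FF E i₀ i₁ M / M ≤ δ / 64 * S * (2 * ℓ) + 3 * S * (δ / 200 * (2 * ℓ)) := by
    have h1 : ∀ M ∈ Ioc Y W', FF E i₀ i₁ M / M ≤ δ / 64 * S * (1 / M) + 3 * S * (ind E' M / M) := by
      intro M hM
      rw [mem_Ioc] at hM
      have hM0 : (0 : ℝ) < M := by exact_mod_cast (by omega : 0 < M)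
      have t1 : 0 ≤ δ / 64 * S * (1 / M) := by positivity
      have t2 : 0 ≤ 3 * S * (ind E' M / M) :=
        mul_nonneg (by positivity) (div_nonneg (ind_nonneg _ _) hM0.le)
      by_cases hc2 : M ∈ E'
      · have e1 : ind E' M = 1 := by unfold ind; exact if_pos hc2
        rw [e1]
        have : FF E i₀ i₁ M / M ≤ 3 * S * (1 / M) := by
          rw [mul_one_div]
          exact div_le_div_of_nonneg_right (FF_le E i₀ i₁ M) hM0.le
        linarith
      · have : FF E i₀ i₁ M / M ≤ δ / 64 * S * (1 / M) := by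
          rw [mul_one_div]
          exact div_le_div_of_nonneg_right (hF M (by omega) hc2) hM0.le
        linarith
    refine (sum_le_sum h1).trans ?_
    rw [sum_add_distrib, ← mul_sum, ← mul_sum]
    have h2 : ∑ M ∈ Ioc Y W', (1 : ℝ) / M ≤ 2 * ℓ := (win_log hY1 (hYW.trans hWW')).trans hlog'
    have h3 : ∑ M ∈ Ioc Y W', ind E' M / (M : ℝ) ≤ δ / 200 * (2 * ℓ) :=
      (hE2 Y W' ((le_max_left _ _).trans hY) (hW1.trans hWW')).trans
        (mul_le_mul_of_nonneg_left hlog' (by positivity))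
    exact add_le_add (mul_le_mul_of_nonneg_left h2 (by positivity)) (mul_le_mul_of_nonneg_left h3 (by positivity))
  have hlo := FF_wlow E hI h0 (i₁ := i₁) hYW (by linarith : 0 ≤ wl E Y W - 1)
  rw [← hS, ← hW'] at hlo
  have k3 := hlo.trans hup
  have k4 : 1 / 8 * (wl E Y W - 1) ≤ δ / 64 * (2 * ℓ) + 3 * (δ / 200 * (2 * ℓ)) := by
    have e1 : 1 / 8 * S * (wl E Y W - 1) = S * (1 / 8 * (wl E Y W - 1)) := by ring
    have e2 : δ / 64 * S * (2 * ℓ) + 3 * S * (δ / 200 * (2 * ℓ)) =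
        S * (δ / 64 * (2 * ℓ) + 3 * (δ / 200 * (2 * ℓ))) := by ring
    rw [e1, e2] at k3
    exact le_of_mul_le_mul_left k3 hS0
  nlinarith

end Pool.Agent.W5h34.CB
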