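import Pool.Agent.Y958.U.Diag
import Pool.Agent.W5h34.CB.BZ

/-!
# Logarithmic averages over windows
-/

set_option autoImplicit false

open Finset

namespace Pool.Agent.W5h34.CB

open Pool.Agent.Y304.U (ind ind_nonneg ind_le)

lemma abel_win (F : ℕ → ℝ) {Y W : ℕ} (h : Y ≤ W) : ∑ n ∈ Ioc Y W, F n / n =
    ∑ N ∈ Ioc Y W, (∑ n ∈ Icc 1 N, F n) * (1 / ((N : ℝ) * (N + 1))) + (∑ n ∈ Icc 1 W, F n) / (W + 1) -
      (∑ n ∈ Icc 1 Y, F n) / (Y + 1) := by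
  induction W, h using Nat.le_induction with
  | base => simp
  | succ W hW ih =>
    rw [← Finset.insert_Ioc_right_eq_Ioc_add_one hW, sum_insert (by simp), sum_insert (by simp), ih,
      sum_Icc_succ_top (by omega)]
    push_cast
    have h1 : (W : ℝ) + 1 ≠ 0 := by positivity
    have h2 : (W : ℝ) + 1 + 1 ≠ 0 := by positivity
    field_simp
    ring

lemma win_low {Y W : ℕ} (h : Y ≤ W) :
    Real.log (((W : ℝ) + 2) / (Y + 2)) ≤ ∑ n ∈ Ioc Y W, (1 : ℝ) / (n + 1) := by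
  induction W, h using Nat.le_induction with
  | base => rw [div_self (by positivity)]; simp
  | succ W hW ih =>
    rw [← Finset.insert_Ioc_right_eq_Ioc_add_one hW, sum_insert (by simp)]
    have h1 : Real.log ((((W + 1 : ℕ) : ℝ) + 2) / (Y + 2)) = Real.log (((W : ℝ) + 2) / (Y + 2)) +
        Real.log (((W : ℝ) + 3) / (W + 2)) := by
      rw [← Real.log_mul (by positivity) (by positivity)]
      congr 1
      push_cast
      field_simp
      ring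
    have h2 : Real.log (((W : ℝ) + 3) / (W + 2)) ≤ 1 / ((W : ℝ) + 2) := by
      have h3 := Real.log_le_sub_one_of_pos (show 0 < ((W : ℝ) + 3) / (W + 2) by positivity)
      refine h3.trans (le_of_eq ?_)
      field_simp
      ring
    rw [h1]
    push_cast
    have e : (W : ℝ) + 1 + 1 = W + 2 := by ring
    rw [e]
    linarith

lemma log_win (F P : ℕ → ℝ) (hP0 : ∀ n, 0 ≤ P n) (hP1 : ∀ n, P n ≤ 1) (hFP : ∀ n, |F n| ≤ P n)
    (c : ℝ) (hc : 0 < c) (hc1 : c < 1) (hE : BZ {N | (1 - c) * ∑ n ∈ Icc 1 N, P n < |∑ n ∈ Icc 1 N, F n|})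
    (β : ℝ) (hβ : 0 < β) (N₁ : ℕ) (hlow : ∀ N : ℕ, N₁ ≤ N → β * N ≤ ∑ n ∈ Icc 1 N, P n) :
    ∃ ω Y₀ : ℕ, 2 ≤ ω ∧ 1 ≤ Y₀ ∧ ∀ Y W : ℕ, Y₀ ≤ Y → ω * Y ≤ W →
      |∑ n ∈ Ioc Y W, F n / n| ≤ (1 - c / 2) * ∑ n ∈ Ioc Y W, P n / n := by
  classical
  set E : Set ℕ := {N | (1 - c) * ∑ n ∈ Icc 1 N, P n < |∑ n ∈ Icc 1 N, F n|} with hEd
  have hcβ : 0 < c * β := by positivity
  obtain ⟨ω, Y₀, h1, h2, h3⟩ := hE (c * β / 8) (by positivity)
  refine ⟨max ω ⌈Real.exp (8 + 8 / (c * β))⌉₊, max Y₀ N₁, h1.trans (le_max_left _ _), h2.trans (le_max_left _ _),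
    fun Y W hY hW => ?_⟩
  have hY1 : 1 ≤ Y := h2.trans ((le_max_left _ _).trans hY)
  have hW1 : ω * Y ≤ W := (Nat.mul_le_mul_right _ (le_max_left _ _)).trans hW
  have hW2 : ⌈Real.exp (8 + 8 / (c * β))⌉₊ * Y ≤ W := (Nat.mul_le_mul_right _ (le_max_right _ _)).trans hW
  have hYW : Y ≤ W := by nlinarith
  have hY0 : (0 : ℝ) < Y := by exact_mod_cast hY1
  have hWr : (Y : ℝ) ≤ W := by exact_mod_cast hYW
  have hW0 : (0 : ℝ) < W := by linarith
  have hwl := h3 Y W ((le_max_left _ _).trans hY) hW1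
  set ℓ : ℝ := Real.log ((W : ℝ) / Y) with hℓ
  have hL : 8 + 8 / (c * β) ≤ ℓ := by
    rw [hℓ, Real.le_log_iff_exp_le (by positivity), le_div_iff₀ hY0]
    have h4 : ((⌈Real.exp (8 + 8 / (c * β))⌉₊ * Y : ℕ) : ℝ) ≤ W := by exact_mod_cast hW2
    push_cast at h4
    refine le_trans ?_ h4
    exact mul_le_mul_of_nonneg_right (Nat.le_ceil _) hY0.le
  have hLc : 8 * (c * β) + 8 ≤ ℓ * (c * β) := by
    have := mul_le_mul_of_nonneg_right hL hcβ.le
    rw [add_mul, div_mul_cancel₀ _ hcβ.ne'] at this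
    exact this
  have hQ : ∀ N : ℕ, ∑ n ∈ Icc 1 N, P n ≤ N := by
    intro N
    refine (sum_le_sum fun k _ => hP1 _).trans (le_of_eq ?_)
    simp
  have hQ0 : ∀ N : ℕ, 0 ≤ ∑ n ∈ Icc 1 N, P n := fun N => sum_nonneg fun n _ => hP0 n
  have hS : ∀ N : ℕ, |∑ n ∈ Icc 1 N, F n| ≤ ∑ n ∈ Icc 1 N, P n := by
    intro N
    exact (abs_sum_le_sum_abs _ _).trans (sum_le_sum fun k _ => hFP _)
  have hedge : ∀ N : ℕ, |(∑ n ∈ Icc 1 N, F n) / ((N : ℝ) + 1)| ≤ 1 := by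
    intro N
    rw [abs_div, abs_of_pos (by positivity : (0 : ℝ) < (N : ℝ) + 1), div_le_one (by positivity)]
    linarith [hS N, hQ N]
  have hedge' : (∑ n ∈ Icc 1 Y, P n) / ((Y : ℝ) + 1) ≤ 1 := by
    rw [div_le_one (by positivity)]
    linarith [hQ Y]
  rw [abel_win F hYW, abel_win P hYW]
  set T : ℝ := ∑ N ∈ Ioc Y W, (∑ n ∈ Icc 1 N, P n) * (1 / ((N : ℝ) * (N + 1))) with hT
  have h4 : |∑ N ∈ Ioc Y W, (∑ n ∈ Icc 1 N, F n) * (1 / ((N : ℝ) * (N + 1)))| ≤ (1 - c) * T + wl E Y W := by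
    refine (abs_sum_le_sum_abs _ _).trans ?_
    have h5 : ∀ N ∈ Ioc Y W, |(∑ n ∈ Icc 1 N, F n) * (1 / ((N : ℝ) * (N + 1)))| ≤
        (1 - c) * ((∑ n ∈ Icc 1 N, P n) * (1 / ((N : ℝ) * (N + 1)))) + ind E N / N := by
      intro N hN
      rw [mem_Ioc] at hN
      have hN0 : (0 : ℝ) < N := by exact_mod_cast (by omega : 0 < N)
      have e1 : (0 : ℝ) < 1 / ((N : ℝ) * (N + 1)) := by positivity
      rw [abs_mul, abs_of_pos e1]
      have e2 : (N : ℝ) * (1 / ((N : ℝ) * (N + 1))) ≤ 1 / N := by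
        rw [mul_one_div, div_le_div_iff₀ (by positivity) hN0]
        nlinarith
      by_cases hNE : N ∈ E
      · have e3 : ind E N = 1 := by unfold ind; exact if_pos hNE
        rw [e3]
        have : |∑ n ∈ Icc 1 N, F n| * (1 / ((N : ℝ) * (N + 1))) ≤ N * (1 / ((N : ℝ) * (N + 1))) :=
          mul_le_mul_of_nonneg_right ((hS N).trans (hQ N)) e1.le
        have h6 : 0 ≤ (1 - c) * ((∑ n ∈ Icc 1 N, P n) * (1 / ((N : ℝ) * (N + 1)))) :=
          mul_nonneg (by linarith) (mul_nonneg (hQ0 N) e1.le)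
        linarith
      · have e3 : ind E N = 0 := by unfold ind; exact if_neg hNE
        rw [e3, zero_div, add_zero]
        have h6 : |∑ n ∈ Icc 1 N, F n| ≤ (1 - c) * ∑ n ∈ Icc 1 N, P n := not_lt.1 hNE
        calc |∑ n ∈ Icc 1 N, F n| * (1 / ((N : ℝ) * (N + 1))) ≤
              ((1 - c) * ∑ n ∈ Icc 1 N, P n) * (1 / ((N : ℝ) * (N + 1))) :=
              mul_le_mul_of_nonneg_right h6 e1.le
          _ = _ := by ring
    refine (sum_le_sum h5).trans ?_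
    rw [sum_add_distrib, ← mul_sum]
    exact le_refl _
  have h6 : β * (ℓ - 2) ≤ T := by
    have h7 : ∀ N ∈ Ioc Y W, β * (1 / ((N : ℝ) + 1)) ≤ (∑ n ∈ Icc 1 N, P n) * (1 / ((N : ℝ) * (N + 1))) := by
      intro N hN
      rw [mem_Ioc] at hN
      have hN0 : (0 : ℝ) < N := by exact_mod_cast (by omega : 0 < N)
      have e1 := hlow N (((le_max_right _ _).trans hY).trans hN.1.le)
      calc β * (1 / ((N : ℝ) + 1)) = β * N * (1 / ((N : ℝ) * (N + 1))) := by field_simp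
        _ ≤ _ := mul_le_mul_of_nonneg_right e1 (by positivity)
    have h8 := sum_le_sum h7
    rw [← mul_sum, ← hT] at h8
    refine le_trans (mul_le_mul_of_nonneg_left ?_ hβ.le) h8
    refine le_trans ?_ (win_low hYW)
    have h9 : (W : ℝ) / Y / 3 ≤ ((W : ℝ) + 2) / (Y + 2) := by
      rw [div_div, div_le_div_iff₀ (by positivity) (by positivity)]
      have hY1r : (1 : ℝ) ≤ Y := by exact_mod_cast hY1
      nlinarith
    have h10 := Real.log_le_log (by positivity) h9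
    rw [Real.log_div (by positivity) (by norm_num)] at h10
    have h11 : Real.log 3 ≤ 2 := by
      have := Real.log_le_sub_one_of_pos (show (0 : ℝ) < 3 by norm_num)
      linarith
    rw [← hℓ] at h10
    linarith
  have h11 : |∑ N ∈ Ioc Y W, (∑ n ∈ Icc 1 N, F n) * (1 / ((N : ℝ) * (N + 1))) +
      (∑ n ∈ Icc 1 W, F n) / ((W : ℝ) + 1) - (∑ n ∈ Icc 1 Y, F n) / ((Y : ℝ) + 1)| ≤
      (1 - c) * T + wl E Y W + 2 := by
    have a1 := abs_sub (∑ N ∈ Ioc Y W, (∑ n ∈ Icc 1 N, F n) * (1 / ((N : ℝ) * (N + 1))) +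
      (∑ n ∈ Icc 1 W, F n) / ((W : ℝ) + 1)) ((∑ n ∈ Icc 1 Y, F n) / ((Y : ℝ) + 1))
    have a2 := abs_add_le (∑ N ∈ Ioc Y W, (∑ n ∈ Icc 1 N, F n) * (1 / ((N : ℝ) * (N + 1))))
      ((∑ n ∈ Icc 1 W, F n) / ((W : ℝ) + 1))
    linarith [hedge W, hedge Y]
  refine h11.trans ?_
  have h12 : 0 ≤ (∑ n ∈ Icc 1 W, P n) / ((W : ℝ) + 1) := div_nonneg (hQ0 W) (by positivity)
  have h13 : c / 2 * (β * (ℓ - 2)) ≤ c / 2 * T := mul_le_mul_of_nonneg_left h6 (by positivity)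
  nlinarith

end Pool.Agent.W5h34.CB
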