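import Pool.Agent.W5h34.CB.ApB
import Pool.Agent.W5h34.CB.Log

/-!
# The Moebius function in windows: the final statements
-/

set_option autoImplicit false

namespace Pool.Agent.W5h34.CB

open Finset Filter Topology
open Pool.Agent.Y958.U (GG GG_le GG_two GG_abs)
open Pool.Agent.Y304.U (ind)

/-- a window of bounded length contains good scales -/
lemma BZ_gap {E : Set ℕ} (h : BZ E) : ∃ ω Y₀ : ℕ, 1 ≤ Y₀ ∧ ∀ Y : ℕ, Y₀ ≤ Y → ∃ N ∈ Ioc Y (ω * Y), N ∉ E := by
  obtain ⟨ω, Y₀, h1, h2, h3⟩ := h (1 / 2) (by norm_num)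
  refine ⟨max ω 10, Y₀, h2, fun Y hY => ?_⟩
  by_contra hcon
  push Not at hcon
  have hY1 : 1 ≤ Y := h2.trans hY
  have hY0 : (0 : ℝ) < Y := by exact_mod_cast hY1
  set W : ℕ := max ω 10 * Y with hW
  have hW10 : 10 * Y ≤ W := Nat.mul_le_mul_right _ (le_max_right _ _)
  have hYW : Y ≤ W := by omega
  have h4 := h3 Y W hY (Nat.mul_le_mul_right _ (le_max_left _ _))
  have h5 : ∑ n ∈ Ioc Y W, (1 : ℝ) / (n + 1) ≤ wl E Y W := by
    unfold wl
    refine sum_le_sum fun n hn => ?_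
    have e1 : ind E n = 1 := by unfold ind; exact if_pos (hcon n hn)
    rw [e1]
    rw [mem_Ioc] at hn
    have hn0 : (0 : ℝ) < n := by exact_mod_cast (by omega : 0 < n)
    exact one_div_le_one_div_of_le hn0 (by linarith)
  have h6 := (win_low hYW).trans (h5.trans h4)
  have hW10r : (10 : ℝ) ≤ (W : ℝ) / Y := by
    rw [le_div_iff₀ hY0]; exact_mod_cast hW10
  have h7 : (W : ℝ) / Y / 3 ≤ ((W : ℝ) + 2) / (Y + 2) := by
    rw [div_div, div_le_div_iff₀ (by positivity) (by positivity)]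
    have hY1r : (1 : ℝ) ≤ Y := by exact_mod_cast hY1
    nlinarith [show (0 : ℝ) ≤ W from Nat.cast_nonneg W]
  have h8 := Real.log_le_log (by positivity) h7
  rw [Real.log_div (by positivity) (by norm_num)] at h8
  have h9 := Real.log_le_log (by norm_num) hW10r
  have h10 : 2 * Real.log 3 < Real.log 10 := by
    have e : 2 * Real.log 3 = Real.log 9 := by
      rw [show (9 : ℝ) = 3 ^ 2 by norm_num, Real.log_pow]; norm_num
    rw [e]
    exact Real.log_lt_log (by norm_num) (by norm_num)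
  linarith

theorem ap_final : ∃ c : ℕ → ℝ, (∀ s, 0 < c s) ∧ ∀ (r : ℕ) (α : Fin r → ℤ) (ε : Fin r → ℕ),
    Function.Injective α → (∀ i, ε i = 1 ∨ ε i = 2) → (∃ i, ε i = 1) → ∀ (q a : ℕ), a < q →
      BZ {N | (1 - c (univ.filter (fun i => ε i = 1)).card) *
          ∑ n ∈ Icc 1 N, (if n % q = a then GG α (fun _ => 2) n else 0) <
        |∑ n ∈ Icc 1 N, if n % q = a then GG α ε n else 0|} ∧
      ∃ ω Y₀ : ℕ, 2 ≤ ω ∧ 1 ≤ Y₀ ∧ ∀ Y W : ℕ, Y₀ ≤ Y → ω * Y ≤ W →
        |∑ n ∈ Ioc Y W, (if n % q = a then GG α ε n else 0) / n| ≤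
          (1 - c (univ.filter (fun i => ε i = 1)).card) *
            ∑ n ∈ Ioc Y W, (if n % q = a then GG α (fun _ => 2) n else 0) / n := by
  classical
  have hms : ∀ s : ℕ, ∃ c : ℝ, 0 < c ∧ c < 1 ∧ (1 ≤ s → ∀ (q a : ℕ), a < q →
    ∀ (r : ℕ) (α : Fin r → ℤ) (ε : Fin r → ℕ),
    Function.Injective α → (∀ i, ε i = 1 ∨ ε i = 2) → (univ.filter (fun i => ε i = 1)).card = s →
      (∀ n, n % q = a → GG α (fun _ => 2) n = 0) ∨
      ((∃ β : ℝ, 0 < β ∧ ∃ N₁ : ℕ, ∀ N : ℕ, N₁ ≤ N →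
          β * N ≤ ∑ n ∈ Icc 1 N, if n % q = a then GG α (fun _ => 2) n else 0) ∧
        BZ {N | (1 - c) * ∑ n ∈ Icc 1 N, (if n % q = a then GG α (fun _ => 2) n else 0) <
          |∑ n ∈ Icc 1 N, if n % q = a then GG α ε n else 0|})) := by
    intro s
    by_cases hs : 1 ≤ s
    · obtain ⟨c, h0, h1, h2⟩ := mob_apB s hs
      exact ⟨c, h0, h1, fun _ => h2⟩
    · exact ⟨1 / 2, by norm_num, by norm_num, fun h => absurd h hs⟩
  choose c hc0 hc1 hc using hms
  refine ⟨fun s => c s / 2, fun s => by have := hc0 s; positivity, fun r α ε hα hε hex q a ha => ?_⟩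
  have hpos : 1 ≤ (univ.filter (fun i => ε i = 1)).card := by
    obtain ⟨i, hi⟩ := hex
    exact card_pos.2 ⟨i, mem_filter.2 ⟨mem_univ _, hi⟩⟩
  set s := (univ.filter (fun i => ε i = 1)).card with hs
  have hc0' := hc0 s
  have hc1' := hc1 s
  have hFP : ∀ n, |if n % q = a then GG α ε n else 0| ≤ if n % q = a then GG α (fun _ => 2) n else 0 := by
    intro n
    split_ifs
    · exact (GG_abs α ε hε n).le
    · simp
  have hP0 : ∀ n, 0 ≤ if n % q = a then GG α (fun _ => 2) n else 0 := by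
    intro n
    split_ifs
    · exact (GG_two α n).1
    · exact le_rfl
  have hP1 : ∀ n, (if n % q = a then GG α (fun _ => 2) n else 0) ≤ 1 := by
    intro n
    split_ifs
    · exact (GG_two α n).2
    · exact zero_le_one
  rcases hc s hpos q a ha r α ε hα hε rfl with h | ⟨⟨β, hβ, N₁, hβN⟩, hBZ⟩
  · have h2 : ∀ n, (if n % q = a then GG α (fun _ => 2) n else 0) = 0 := by
      intro n
      split_ifs with hn
      · exact h n hn
      · rfl
    have h1 : ∀ n, (if n % q = a then GG α ε n else 0) = 0 := by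
      intro n
      have := hFP n
      rw [h2 n] at this
      exact abs_eq_zero.1 (le_antisymm this (abs_nonneg _))
    refine ⟨?_, 2, 1, le_rfl, le_rfl, fun Y W _ _ => ?_⟩
    · refine BZ_sub ?_ BZ_empty
      intro N hN
      rw [Set.mem_setOf_eq, sum_congr rfl fun n _ => h1 n, sum_congr rfl fun n _ => h2 n] at hN
      simp at hN
    · have e1 : ∑ n ∈ Ioc Y W, (if n % q = a then GG α ε n else 0) / (n : ℝ) = 0 :=
        sum_eq_zero fun n _ => by rw [h1 n, zero_div]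
      have e2 : ∑ n ∈ Ioc Y W, (if n % q = a then GG α (fun _ => 2) n else 0) / (n : ℝ) = 0 :=
        sum_eq_zero fun n _ => by rw [h2 n, zero_div]
      rw [e1, e2, abs_zero, mul_zero]
  · refine ⟨BZ_sub ?_ hBZ, ?_⟩
    · intro N hN
      rw [Set.mem_setOf_eq] at hN ⊢
      refine lt_of_le_of_lt ?_ hN
      apply mul_le_mul_of_nonneg_right _ (sum_nonneg fun n _ => hP0 n)
      simp only
      linarith
    · exact log_win (fun n => if n % q = a then GG α ε n else 0)
        (fun n => if n % q = a then GG α (fun _ => 2) n else 0) hP0 hP1 hFP (c s) hc0' hc1' hBZ β hβ N₁ hβN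

end Pool.Agent.W5h34.CB
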