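import Pool.Agent.W5h34.CB.CoreB

/-!
# The Moebius function in windows, along arithmetic progressions
-/

set_option autoImplicit false

namespace Pool.Agent.W5h34.CB

open Finset Filter Topology
open Pool.Agent.Y958.TC (ind Av)
open Pool.Agent.Y958.U hiding mob_shift core unif main

lemma ap_blocks (g : ℕ → ℝ) (q a : ℕ) (ha : a < q) (M : ℕ) :
    ∑ n ∈ range (q * M), (if n % q = a then g n else 0) = ∑ m ∈ range M, g (q * m + a) := by
  induction M with
  | zero => simp
  | succ M ih =>
    rw [mul_add, mul_one, sum_range_add, ih, sum_range_succ]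
    congr 1
    rw [sum_eq_single a]
    · rw [Nat.mul_add_mod, Nat.mod_eq_of_lt ha, if_pos rfl]
    · intro i hi hia
      rw [mem_range] at hi
      rw [Nat.mul_add_mod, Nat.mod_eq_of_lt hi, if_neg hia]
    · intro h
      exact absurd (mem_range.2 ha) h

lemma ap_sum (g : ℕ → ℝ) (hg : ∀ n, |g n| ≤ 1) (q a : ℕ) (ha : a < q) (N : ℕ) :
    |∑ n ∈ Icc 1 N, (if n % q = a then g n else 0) - ∑ m ∈ Icc 1 (N / q), g (q * m + a)| ≤ 4 := by
  set f : ℕ → ℝ := fun n => if n % q = a then g n else 0 with hf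
  have hf1 : ∀ n, |f n| ≤ 1 := by
    intro n
    rw [hf]
    simp only
    split_ifs
    · exact hg n
    · simp
  have h1 : ∑ n ∈ range (N + 1), f n = ∑ n ∈ Icc 1 N, f n + f 0 := by
    rw [sum_range_succ', sum_range_Icc f N]
  have h2 : N + 1 = q * (N / q) + (N % q + 1) := by
    have := Nat.div_add_mod N q
    omega
  have hmod : N % q < q := Nat.mod_lt _ (by omega)
  have h3 : ∑ n ∈ range (N + 1), f n = ∑ m ∈ range (N / q), g (q * m + a) +
      ∑ i ∈ range (N % q + 1), f (q * (N / q) + i) := by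
    rw [h2, sum_range_add, ap_blocks g q a ha]
  have h4 : |∑ i ∈ range (N % q + 1), f (q * (N / q) + i)| ≤ 1 := by
    by_cases hat : a ∈ range (N % q + 1)
    · rw [sum_eq_single_of_mem a hat]
      · exact hf1 _
      · intro i hi hia
        rw [mem_range] at hi
        rw [hf]
        simp only
        rw [Nat.mul_add_mod, Nat.mod_eq_of_lt (by omega), if_neg hia]
    · rw [sum_eq_zero]
      · simp
      · intro i hi
        have hia : i ≠ a := fun h => hat (h ▸ hi)
        rw [mem_range] at hi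
        rw [hf]
        simp only
        rw [Nat.mul_add_mod, Nat.mod_eq_of_lt (by omega), if_neg hia]
  have h5 : ∑ m ∈ range (N / q), g (q * m + a) + g (q * (N / q) + a) =
      ∑ m ∈ Icc 1 (N / q), g (q * m + a) + g (q * 0 + a) := by
    rw [← sum_range_succ (fun m => g (q * m + a)), sum_range_succ',
      sum_range_Icc (fun m => g (q * m + a)) (N / q)]
  have k1 := abs_le.1 (hf1 0)
  have k2 := abs_le.1 h4
  have k3 := abs_le.1 (hg (q * (N / q) + a))
  have k4 := abs_le.1 (hg (q * 0 + a))
  rw [abs_le]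
  constructor <;> linarith [k1.1, k1.2, k2.1, k2.2, k3.1, k3.2, k4.1, k4.2]

/-- the Moebius function, one family of shifts, in a residue class -/
theorem mob_apB (s : ℕ) (hs : 1 ≤ s) : ∃ c : ℝ, 0 < c ∧ c < 1 ∧ ∀ (q a : ℕ), a < q →
    ∀ (r : ℕ) (α : Fin r → ℤ) (ε : Fin r → ℕ),
    Function.Injective α → (∀ i, ε i = 1 ∨ ε i = 2) → (univ.filter (fun i => ε i = 1)).card = s →
      (∀ n, n % q = a → GG α (fun _ => 2) n = 0) ∨
      ((∃ β : ℝ, 0 < β ∧ ∃ N₁ : ℕ, ∀ N : ℕ, N₁ ≤ N →
          β * N ≤ ∑ n ∈ Icc 1 N, if n % q = a then GG α (fun _ => 2) n else 0) ∧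
        BZ {N | (1 - c) * ∑ n ∈ Icc 1 N, (if n % q = a then GG α (fun _ => 2) n else 0) <
          |∑ n ∈ Icc 1 N, if n % q = a then GG α ε n else 0|}) := by
  classical
  obtain ⟨c, hc0, hc1, hU⟩ := coreB s hs
  refine ⟨c / 2, by positivity, by linarith, fun q a ha r α ε hα hε hcard => ?_⟩
  have hq : 1 ≤ q := by omega
  have hq0 : (0 : ℝ) < q := by exact_mod_cast hq
  set m0 : ℕ := ∑ i, (α i).natAbs with hm0
  have hm : ∀ i, -(m0 : ℤ) ≤ α i := by
    intro i
    have h1 : (α i).natAbs ≤ m0 := single_le_sum (f := fun i => (α i).natAbs) (fun _ _ => Nat.zero_le _) (mem_univ i)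
    omega
  have hqm : m0 ≤ q * m0 := Nat.le_mul_of_pos_left _ hq
  set x : Fin r → ℕ := fun i => (((q * m0 + a : ℕ) : ℤ) + α i).toNat with hx
  have hxZ : ∀ i, (x i : ℤ) = ((q * m0 + a : ℕ) : ℤ) + α i := by
    intro i
    simp only [hx]
    rw [Int.toNat_of_nonneg]
    have := hm i
    omega
  have hxinj : Function.Injective x := by
    intro i j hij
    apply hα
    have h1 := hxZ i
    have h2 := hxZ j
    rw [hij] at h1
    omega
  have hcard' : Fintype.card {i // ε i = 1} = s := by
    rw [Fintype.card_subtype]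
    exact hcard
  set σ : Fin s ≃ {i // ε i = 1} := (Fintype.equivFinOfCardEq hcard').symm with hσ
  set b : Fin s → ℕ := fun j => x (σ j).1 with hb
  have hbinj : Function.Injective b := by
    intro i j hij
    have h1 := hxinj hij
    exact σ.injective (Subtype.ext h1)
  have hto : ∀ n i, ((q * (n + m0) + a : ℕ) + α i : ℤ).toNat = q * n + x i := by
    intro n i
    have h1 := hxZ i
    have h2 : ((q * (n + m0) + a : ℕ) + α i : ℤ) = ((q * n + x i : ℕ) : ℤ) := by
      push_cast at h1 ⊢
      rw [h1]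
      ring
    rw [h2, Int.toNat_natCast]
  have hG2 : ∀ n, GG α (fun _ => 2) (q * (n + m0) + a) = ind (SF (fun _ => q) x) n := by
    intro n
    unfold GG
    by_cases h : SF (fun _ => q) x n
    · rw [ind_pos' h]
      apply prod_eq_one
      intro i _
      rw [hto, moeb_sq, if_pos (h i)]
    · rw [ind_neg' h]
      unfold SF at h
      push Not at h
      obtain ⟨i, hi⟩ := h
      apply prod_eq_zero (mem_univ i)
      rw [hto, moeb_sq, if_neg hi]
  have hG1 : ∀ n, GG α ε (q * (n + m0) + a) = ind (SF (fun _ => q) x) n * FF (fun _ => q) b n := by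
    intro n
    unfold GG
    by_cases h : SF (fun _ => q) x n
    · rw [ind_pos' h, one_mul]
      unfold FF
      have e1 : ∀ i, ((ArithmeticFunction.moebius ((q * (n + m0) + a : ℕ) + α i : ℤ).toNat : ℤ) : ℝ) ^ ε i =
          if ε i = 1 then (-1 : ℝ) ^ ArithmeticFunction.cardFactors (q * n + x i) else 1 := by
        intro i
        rw [hto]
        by_cases hi : ε i = 1
        · rw [if_pos hi, hi, pow_one, ArithmeticFunction.moebius_apply_of_squarefree (h i)]
          push_cast
          rfl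
        · rw [if_neg hi, (hε i).resolve_left hi, moeb_sq, if_pos (h i)]
      rw [prod_congr rfl fun i _ => e1 i, ← prod_filter]
      have e2 : ∏ i ∈ univ.filter (fun i => ε i = 1), (-1 : ℝ) ^ ArithmeticFunction.cardFactors (q * n + x i) =
          ∏ i : {i // ε i = 1}, (-1 : ℝ) ^ ArithmeticFunction.cardFactors (q * n + x i.1) := by
        rw [← prod_subtype_eq_prod_filter, subtype_univ]
      rw [e2]
      exact (Equiv.prod_comp σ (fun i : {i // ε i = 1} =>
        (-1 : ℝ) ^ ArithmeticFunction.cardFactors (q * n + x i.1))).symm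
    · rw [ind_neg' h, zero_mul]
      unfold SF at h
      push Not at h
      obtain ⟨i, hi⟩ := h
      apply prod_eq_zero (mem_univ i)
      rw [hto, ArithmeticFunction.moebius_eq_zero_of_not_squarefree hi, Int.cast_zero, zero_pow]
      rcases hε i with h | h <;> omega
  rcases hU (fun _ => q) b (fun _ => hq) (fun i j hij => by
      intro h
      exact hij (hbinj (Nat.eq_of_mul_eq_mul_left (by omega) h)).symm) r (fun _ => q) x (fun _ => hq) with hW | ⟨hβ, hLZ⟩
  · -- no value
    left
    obtain ⟨W, hW⟩ := hW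
    intro n hn
    by_contra hne
    have hnq : q * (n / q) + a = n := by
      have := Nat.div_add_mod n q
      omega
    have hsq : ∀ i, Squarefree ((n : ℤ) + α i).toNat := by
      intro i
      by_contra hi
      apply hne
      unfold GG
      apply prod_eq_zero (mem_univ i)
      rw [moeb_sq, if_neg hi]
    apply hW (n / q + (AW W - 1) * m0)
    intro i p hp hpW hd
    have hpos : 0 < ((n : ℤ) + α i).toNat := Nat.pos_of_ne_zero (hsq i).ne_zero
    have h1 : q * (n / q + (AW W - 1) * m0) + x i = ((n : ℤ) + α i).toNat + AW W * (q * m0) := by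
      have h2 := hxZ i
      have h3 : (((n : ℤ) + α i).toNat : ℤ) = n + α i := Int.toNat_of_nonneg (by omega)
      have h4 : (AW W - 1) * m0 + m0 = AW W * m0 := by
        have := AW_pos W
        calc (AW W - 1) * m0 + m0 = (AW W - 1 + 1) * m0 := by ring
          _ = AW W * m0 := by rw [Nat.sub_add_cancel this]
      have h6 : AW W * (q * m0) = q * ((AW W - 1) * m0 + m0) := by rw [h4]; ring
      have h5 : ((q * (n / q + (AW W - 1) * m0) + x i : ℕ) : ℤ) =
          ((((n : ℤ) + α i).toNat + AW W * (q * m0) : ℕ) : ℤ) := by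
        rw [h6]
        have h7 : ((n : ℕ) : ℤ) = ((q * (n / q) + a : ℕ) : ℤ) := by rw [hnq]
        push_cast at h2 h7 ⊢
        rw [h3, h2]
        nth_rw 2 [h7]
        ring
      exact_mod_cast h5
    rw [h1] at hd
    have hdA : p ^ 2 ∣ AW W * (q * m0) := by
      apply Dvd.dvd.mul_right
      unfold AW
      exact pow_dvd_pow_of_dvd ((Nat.Prime.dvd_factorial hp).2 hpW) 2
    rw [Nat.dvd_add_left hdA, sq] at hd
    exact (Nat.squarefree_iff_prime_squarefree.1 (hsq i)) p hp hd
  · right
    obtain ⟨β, hβ0, N₁, hβN⟩ := hβ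
    -- comparison
    have hcomp : ∀ (g : ℕ → ℝ), (∀ n, |g n| ≤ 1) → ∀ N,
        |∑ n ∈ Icc 1 N, (if n % q = a then g n else 0) - ∑ m ∈ Icc 1 (N / q), g (q * (m + m0) + a)| ≤ 4 + 2 * m0 := by
      intro g hg N
      have k1 := ap_sum g hg q a ha N
      have k2 := shift_sum (fun m => g (q * m + a)) (fun m => hg _) m0 (N / q)
      have k3 := abs_le.1 k1
      have k4 := abs_le.1 k2
      rw [abs_le]
      constructor <;> linarith [k3.1, k3.2, k4.1, k4.2]
    have hs2 : ∀ N, |∑ n ∈ Icc 1 N, (if n % q = a then GG α (fun _ => 2) n else 0) -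
        ∑ n ∈ Icc 1 (N / q), ind (SF (fun _ => q) x) n| ≤ 4 + 2 * m0 := by
      intro N
      have := hcomp (GG α (fun _ => 2)) (GG_le α _) N
      rw [sum_congr rfl fun n _ => hG2 n] at this
      exact this
    have hs1 : ∀ N, |∑ n ∈ Icc 1 N, (if n % q = a then GG α ε n else 0) -
        ∑ n ∈ Icc 1 (N / q), ind (SF (fun _ => q) x) n * FF (fun _ => q) b n| ≤ 4 + 2 * m0 := by
      intro N
      have := hcomp (GG α ε) (GG_le α _) N
      rw [sum_congr rfl fun n _ => hG1 n] at this
      exact this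
    have hdiv : ∀ N : ℕ, (N : ℝ) / q - 1 ≤ ((N / q : ℕ) : ℝ) := by
      intro N
      have h1 := Nat.lt_mul_div_succ N (by omega : 0 < q)
      have h2 : (N : ℝ) < q * (((N / q : ℕ) : ℝ) + 1) := by exact_mod_cast h1
      rw [sub_le_iff_le_add, div_le_iff₀ hq0]
      linarith
    set C : ℝ := 4 + 2 * m0 with hC
    have hC0 : 0 < C := by positivity
    refine ⟨⟨β / (2 * q), by positivity, q * N₁ + ⌈2 * q * (β + C) / β⌉₊, fun N hN => ?_⟩, ?_⟩
    · have hN1 : N₁ ≤ N / q := by
        rw [Nat.le_div_iff_mul_le (by omega), mul_comm]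
        omega
      have h1 := hβN (N / q) hN1
      have h2 : 2 * q * (β + C) / β ≤ N := (Nat.le_ceil _).trans (Nat.cast_le.2 (by omega))
      rw [div_le_iff₀ hβ0] at h2
      have h3 := abs_le.1 (hs2 N)
      have h4 := hdiv N
      have h5 : β * ((N : ℝ) / q - 1) ≤ β * ((N / q : ℕ) : ℝ) := mul_le_mul_of_nonneg_left h4 hβ0.le
      have h6 : β / (2 * q) * N = β * ((N : ℝ) / q - 1) - (β * N / (2 * q) - β) := by
        field_simp
        ring
      have h7 : β + C ≤ β * N / (2 * q) := by
        rw [le_div_iff₀ (by positivity)]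
        linarith
      linarith [h3.1, h3.2]
    · set K : ℕ := q * N₁ + ⌈q * (β + 4 * C / c) / β⌉₊ with hK
      refine BZ_sub ?_ (BZ_union (BZ_push _ q hq hLZ) (BZ_bdd {N | N < K} _ fun n hn => hn))
      intro N hN
      by_cases hNK : N < K
      · exact Or.inr hNK
      left
      have hN' : (1 - c / 2) * ∑ n ∈ Icc 1 N, (if n % q = a then GG α (fun _ => 2) n else 0) <
          |∑ n ∈ Icc 1 N, if n % q = a then GG α ε n else 0| := hN
      show (1 - c) * ∑ n ∈ Icc 1 (N / q), ind (SF (fun _ => q) x) n <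
        |∑ n ∈ Icc 1 (N / q), ind (SF (fun _ => q) x) n * FF (fun _ => q) b n|
      have hN1 : N₁ ≤ N / q := by
        rw [Nat.le_div_iff_mul_le (by omega), mul_comm]
        omega
      have h1 := hβN (N / q) hN1
      have h2 : q * (β + 4 * C / c) / β ≤ N := (Nat.le_ceil _).trans (Nat.cast_le.2 (by omega))
      rw [div_le_iff₀ hβ0] at h2
      have h3 := abs_le.1 (hs2 N)
      have h4 := abs_sub_abs_le_abs_sub (∑ n ∈ Icc 1 N, if n % q = a then GG α ε n else 0)
        (∑ n ∈ Icc 1 (N / q), ind (SF (fun _ => q) x) n * FF (fun _ => q) b n)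
      have h5 := hs1 N
      have h8 : 4 * C / c ≤ β * ((N / q : ℕ) : ℝ) := by
        have h6 := hdiv N
        have h7 : β * ((N : ℝ) / q - 1) ≤ β * ((N / q : ℕ) : ℝ) := mul_le_mul_of_nonneg_left h6 hβ0.le
        have h9 : β + 4 * C / c ≤ β * ((N : ℝ) / q) := by
          rw [mul_div_assoc', le_div_iff₀ hq0]
          linarith
        linarith
      have h10 : 4 * C ≤ c * ∑ n ∈ Icc 1 (N / q), ind (SF (fun _ => q) x) n := by
        have := h8.trans h1
        rw [div_le_iff₀ hc0] at this
        linarith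
      nlinarith [h3.1, h3.2]

end Pool.Agent.W5h34.CB
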