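import Pool.Agent.W5h34.CB.FinB
import Pool.Agent.Y958.U.MobLin

/-!
# The Liouville function along linear forms in windows
-/

set_option autoImplicit false

namespace Pool.Agent.W5h34.CB

open Finset Filter Topology
open Pool.Agent.TH823.MRS (ExpoSmall FlipAll lam_bdd lam_flip expo_lam)
open Pool.Agent.H376R2.MR (lam)
open Pool.Agent.Y958.TC (ind Av)
open Pool.Agent.Y958.U hiding core

/-- the Liouville function along linear forms, on the set where given linear forms are squarefree -/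
theorem coreB (s : ℕ) (hs : 1 ≤ s) : ∃ c : ℝ, 0 < c ∧ c < 1 ∧ ∀ a b : Fin s → ℕ, (∀ i, 1 ≤ a i) →
    (∀ i j, i ≠ j → a i * b j ≠ a j * b i) → ∀ (t : ℕ) (e d : Fin t → ℕ), (∀ j, 1 ≤ e j) →
      (∃ W, ∀ n, ¬ VL e d W n) ∨
      ((∃ β : ℝ, 0 < β ∧ ∃ N₁ : ℕ, ∀ N : ℕ, N₁ ≤ N → β * N ≤ ∑ n ∈ Icc 1 N, ind (SF e d) n) ∧
        BZ {N | (1 - c) * ∑ n ∈ Icc 1 N, ind (SF e d) n < |∑ n ∈ Icc 1 N, ind (SF e d) n * FF a b n|}) := by
  classical
  obtain ⟨c, hc0, hc1, hU⟩ := unifB s
  refine ⟨c / 2, by positivity, by linarith, fun a b ha hab t e d he => ?_⟩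
  obtain ⟨W, hW2, hSQ⟩ := sqfl e d he (c / 8) (by positivity)
  set A1 : ℕ := AW W with hA1d
  have hA1 : 1 ≤ A1 := AW_pos W
  set V : ℕ → Prop := VL e d W with hVd
  have hVper : ∀ n, V (n + A1) ↔ V n := VL_per e d W
  set v : ℝ := dv V A1 with hvd
  have hv0 : 0 ≤ v := by rw [hvd]; unfold dv; positivity
  rcases hv0.lt_or_eq with hv | hv
  swap
  · -- the periodic set is empty
    left
    refine ⟨W, fun n hn => ?_⟩
    have h1 : n % A1 ∈ (range A1).filter V :=
      mem_filter.2 ⟨mem_range.2 (Nat.mod_lt _ (by omega)), (V_congr hVper (Nat.mod_modEq n A1)).2 hn⟩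
    have h2 : 0 < (((range A1).filter V).card : ℝ) := by exact_mod_cast card_pos.2 ⟨_, h1⟩
    have h3 : (0 : ℝ) < A1 := by exact_mod_cast hA1
    have h4 : 0 < v := by
      rw [hvd]
      unfold dv
      have : 0 < (((range A1).filter V).card : ℝ) / A1 := by positivity
      convert this
    linarith
  right
  obtain ⟨N₀, hN₀⟩ := hSQ hv
  have hA10 : (0 : ℝ) < A1 := by exact_mod_cast hA1
  -- lower bound for the squarefree set
  have hlow : ∀ N : ℕ, N₀ ≤ N → (1 - c / 8) * (v * (N + 1)) - 1 ≤ ∑ n ∈ Icc 1 N, ind (SF e d) n := by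
    intro N hN
    have h1 := hN₀ (N + 1) (by omega)
    have h2 : (((range (N + 1)).filter (fun n => ∀ i, Squarefree (e i * n + d i))).card : ℝ) =
        ∑ n ∈ range (N + 1), ind (SF e d) n := by
      rw [sum_ind]
      congr!
    rw [h2, sum_range_succ', sum_range_Icc (fun n => ind (SF e d) n) N] at h1
    push_cast at h1
    have h3 := ind_le (SF e d) 0
    linarith
  refine ⟨⟨v / 4, by positivity, N₀ + ⌈4 / v⌉₊, fun N hN => ?_⟩, ?_⟩
  · have h1 := hlow N (by omega)
    have h2 : 4 / v ≤ N := (Nat.le_ceil _).trans (Nat.cast_le.2 (by omega))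
    rw [div_le_iff₀ hv] at h2
    have h3 : (1 / 2 : ℝ) * (v * (N + 1)) ≤ (1 - c / 8) * (v * (N + 1)) :=
      mul_le_mul_of_nonneg_right (by linarith) (by positivity)
    nlinarith
  -- the coefficients
  set A : ℕ := ∏ i, a i with hAd
  have hA : 1 ≤ A := Nat.one_le_iff_ne_zero.2 (prod_ne_zero_iff.2 fun i _ => by have := ha i; omega)
  have hA0 : (0 : ℝ) < A := by exact_mod_cast hA
  set B : Fin s → ℕ := fun i => ∏ j ∈ univ.erase i, a j with hB
  have hBA : ∀ i, a i * B i = A := by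
    intro i
    rw [hB, hAd]
    exact mul_prod_erase univ a (mem_univ i)
  have hB0 : ∀ i, B i ≠ 0 := fun i h => by
    have := hBA i
    rw [h, mul_zero] at this
    omega
  set x : Fin s → ℕ := fun i => B i * b i with hx
  have hxi : Function.Injective x := by
    intro i j hij
    by_contra hne
    apply hab i j hne
    simp only [hx] at hij
    have h1 : A * (a i * b j) = A * (a j * b i) := by
      calc A * (a i * b j) = a i * (a j * (B j * b j)) := by rw [← hBA j]; ring
        _ = a i * (a j * (B i * b i)) := by rw [hij]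
        _ = A * (a j * b i) := by rw [← hBA i]; ring
    exact Nat.eq_of_mul_eq_mul_left (by omega) h1
  set V' : ℕ → Prop := fun m => A ∣ m ∧ V (m / A) with hV'
  have hV'per : ∀ n, V' (n + A * A1) ↔ V' n := by
    intro n
    simp only [hV']
    rw [Nat.dvd_add_left (dvd_mul_right A A1)]
    apply and_congr_right
    intro _
    rw [Nat.add_mul_div_left _ _ (by omega : 0 < A), hVper]
  have hdv' : dv V' (A * A1) = v / A := dv_mult' V A A1 hA
  have hAA1 : 1 ≤ A * A1 := Nat.one_le_iff_ne_zero.2 (Nat.mul_ne_zero (by omega) (by omega))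
  have h1 := hU lam lam_bdd lam_flip expo_lam V' (A * A1) hAA1 hV'per (by rw [hdv']; positivity)
    x (fun _ => 1) hxi (fun _ => Or.inl rfl) ⟨⟨0, by omega⟩, rfl⟩
  rw [hdv'] at h1
  set E : Set ℕ := {N | (1 - c) * (v / A) <
    |Av N (fun n => ind V' n * ∏ i, ((lam (n + x i) : ℤ) : ℝ) ^ 1)|} with hE
  set K : ℕ := N₀ + ⌈(4 * (v * A1 + 6)) / (c * v)⌉₊ with hK
  have h2 := BZ_union (BZ_pull E A hA h1) (BZ_bdd {N | N < K} _ fun n hn => hn)
  refine BZ_sub ?_ h2
  intro N hN
  by_cases hNK : N < K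
  · exact Or.inr hNK
  left
  rw [Set.mem_setOf_eq] at hN ⊢
  rw [hE, Set.mem_setOf_eq]
  by_contra hcon
  rw [not_lt] at hcon
  have hNr : (4 * (v * A1 + 6)) / (c * v) ≤ N := (Nat.le_ceil _).trans (Nat.cast_le.2 (by omega))
  rw [div_le_iff₀ (by positivity)] at hNr
  -- the average in terms of the forms
  have hAv : Av (A * (N + 1)) (fun n => ind V' n * ∏ i, ((lam (n + x i) : ℤ) : ℝ) ^ 1) =
      (∑ n ∈ range (N + 1), ind V n * ∏ i, ((lam (A * n + x i) : ℤ) : ℝ)) / (A * ((N : ℝ) + 1)) := by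
    unfold Pool.Agent.Y958.TC.Av
    have h3 := sum_mult A (N + 1) hA (fun m => ind V (m / A) * ∏ i, ((lam (m + x i) : ℤ) : ℝ))
    congr 1
    · simp only [pow_one]
      calc ∑ n ∈ range (A * (N + 1)), ind V' n * ∏ i, ((lam (n + x i) : ℤ) : ℝ) =
          ∑ m ∈ range (A * (N + 1)), ind (fun m => A ∣ m) m *
            (ind V (m / A) * ∏ i, ((lam (m + x i) : ℤ) : ℝ)) := by
            apply sum_congr rfl
            intro m _
            rw [← mul_assoc]
            congr 1
            by_cases hm : A ∣ m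
            · by_cases hm2 : V (m / A)
              · rw [ind_pos' (P := V') ⟨hm, hm2⟩, ind_pos' (P := fun m => A ∣ m) hm, ind_pos' (P := V) hm2, one_mul]
              · rw [ind_neg' (P := V') fun h => hm2 h.2, ind_neg' (P := V) hm2, mul_zero]
            · rw [ind_neg' (P := V') fun h => hm h.1, ind_neg' (P := fun m => A ∣ m) hm, zero_mul]
        _ = ∑ n ∈ range (N + 1), ind V n * ∏ i, ((lam (A * n + x i) : ℤ) : ℝ) := by
            rw [h3]
            apply sum_congr rfl
            intro n _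
            rw [Nat.mul_div_cancel_left _ (by omega : 0 < A)]
    · push_cast
      ring
  rw [hAv, abs_div, abs_of_pos (by positivity : (0 : ℝ) < A * ((N : ℝ) + 1)), div_le_iff₀ (by positivity),
    sum_range_succ', sum_range_Icc (fun n => ind V n * ∏ i, ((lam (A * n + x i) : ℤ) : ℝ)) N] at hcon
  have e5 : (1 - c) * (v / (A : ℝ)) * (A * ((N : ℝ) + 1)) = (1 - c) * v * (N + 1) := by
    field_simp
  rw [e5] at hcon
  have hz : |ind V 0 * ∏ i, ((lam (A * 0 + x i) : ℤ) : ℝ)| ≤ 1 := by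
    rw [abs_mul, abs_of_nonneg (ind_nonneg V 0)]
    have : |∏ i, ((lam (A * 0 + x i) : ℤ) : ℝ)| = 1 := by
      rw [abs_prod]
      apply prod_eq_one
      intro i _
      rw [lam_real, abs_pow, abs_neg, abs_one, one_pow]
    rw [this, mul_one]
    exact ind_le V 0
  have hlam1 : ∀ n, ((lam n : ℤ) : ℝ) * ((lam n : ℤ) : ℝ) = 1 := by
    intro n
    rw [lam_real, ← mul_pow]
    norm_num
  have hFF : ∀ n ∈ Icc 1 N, FF a b n = (∏ i, ((lam (B i) : ℤ) : ℝ)) * ∏ i, ((lam (A * n + x i) : ℤ) : ℝ) := by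
    intro n hn
    rw [mem_Icc] at hn
    unfold FF
    rw [← prod_mul_distrib]
    apply prod_congr rfl
    intro i _
    have e1 : A * n + x i = B i * (a i * n + b i) := by
      simp only [hx]
      rw [← hBA i]
      ring
    have e2 : a i * n + b i ≠ 0 := by
      have : 1 ≤ a i * n := Nat.one_le_iff_ne_zero.2 (Nat.mul_ne_zero (by have := ha i; omega) (by omega))
      omega
    rw [e1, lam_real (B i * _), ArithmeticFunction.cardFactors_mul (hB0 i) e2, pow_add, ← lam_real (B i),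
      ← mul_assoc, hlam1, one_mul]
  have hsum : ∑ n ∈ Icc 1 N, ind V n * FF a b n =
      (∏ i, ((lam (B i) : ℤ) : ℝ)) * ∑ n ∈ Icc 1 N, ind V n * ∏ i, ((lam (A * n + x i) : ℤ) : ℝ) := by
    rw [mul_sum]
    apply sum_congr rfl
    intro n hn
    rw [hFF n hn]
    ring
  have hB1 : |∏ i, ((lam (B i) : ℤ) : ℝ)| = 1 := by
    rw [abs_prod]
    apply prod_eq_one
    intro i _
    rw [lam_real, abs_pow, abs_neg, abs_one, one_pow]
  have hbV : |∑ n ∈ Icc 1 N, ind V n * FF a b n| ≤ (1 - c) * v * (N + 1) + 1 := by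
    rw [hsum, abs_mul, hB1, one_mul]
    have h4 := abs_sub_abs_le_abs_sub (∑ n ∈ Icc 1 N, ind V n * ∏ i, ((lam (A * n + x i) : ℤ) : ℝ))
      (-(ind V 0 * ∏ i, ((lam (A * 0 + x i) : ℤ) : ℝ)))
    rw [abs_neg, sub_neg_eq_add] at h4
    linarith
  -- the difference of the two weights
  have hdiff : |∑ n ∈ Icc 1 N, ind (SF e d) n * FF a b n - ∑ n ∈ Icc 1 N, ind V n * FF a b n| ≤
      ∑ n ∈ Icc 1 N, ind V n - ∑ n ∈ Icc 1 N, ind (SF e d) n := by
    rw [← sum_sub_distrib, ← sum_sub_distrib]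
    refine (abs_sum_le_sum_abs _ _).trans (sum_le_sum fun n _ => ?_)
    rw [← sub_mul, abs_mul]
    have h5 : ind (SF e d) n ≤ ind V n := by
      by_cases h : SF e d n
      · rw [ind_pos' (P := V) (SF_VL e d W n h)]
        exact ind_le _ _
      · rw [ind_neg' h]
        exact ind_nonneg _ _
    rw [abs_of_nonpos (by linarith)]
    have h6 := FF_le a b n
    nlinarith
  have hup : ∑ n ∈ Icc 1 N, ind V n ≤ v * (N + 1) + v * A1 := by
    have h5 : ∑ n ∈ Icc 1 N, ind V n ≤ ∑ n ∈ range (N + 1), ind V n := by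
      apply sum_le_sum_of_subset_of_nonneg
      · intro n hn
        rw [mem_Icc] at hn
        rw [mem_range]
        omega
      · intro n _ _
        exact ind_nonneg _ _
    refine h5.trans ?_
    rw [sum_ind]
    have h6 := class_bound V A1 1 0 (N + 1) hA1 le_rfl (Nat.coprime_one_right A1) hVper
    have h7 : (((range (N + 1)).filter V).card : ℝ) ≤
        (((range (N + 1)).filter (fun n => V n ∧ 1 ∣ n + 0)).card : ℝ) := by
      apply Nat.cast_le.2
      apply card_le_card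
      intro n hn
      rw [mem_filter] at hn ⊢
      exact ⟨hn.1, hn.2, one_dvd _⟩
    refine h7.trans (h6.trans (le_of_eq ?_))
    push_cast
    rw [← hvd]
    ring
  have hQ := hlow N (by omega)
  have hf1 := abs_le.1 hdiff
  have hf2 := abs_le.1 hbV
  set Q := ∑ n ∈ Icc 1 N, ind (SF e d) n with hQd
  set R := ∑ n ∈ Icc 1 N, ind (SF e d) n * FF a b n with hRd
  set R' := ∑ n ∈ Icc 1 N, ind V n * FF a b n with hR'd
  have hR : |R| ≤ (1 - c) * v * (N + 1) + 1 + (v * (N + 1) + v * A1 - Q) := by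
    rw [abs_le]
    constructor <;> linarith [hf1.1, hf1.2, hf2.1, hf2.2]
  have hvN : 0 ≤ v * ((N : ℝ) + 1) := by positivity
  have key : (2 - c / 2) * ((1 - c / 8) * (v * (N + 1)) - 1) ≤ (2 - c / 2) * Q :=
    mul_le_mul_of_nonneg_left hQ (by linarith)
  have hNr' : 4 * (v * A1 + 6) ≤ c * (v * (N + 1)) := by nlinarith
  nlinarith


end Pool.Agent.W5h34.CB
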