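import Pool.Agent.W5h34.CB.MainB
import Pool.Agent.Y958.U.Fin

/-!
# The uniform bound in windows, all hypotheses proved
-/

set_option autoImplicit false

namespace Pool.Agent.W5h34.CB

open Finset Filter Topology
open Pool.Agent.TH823.MRS (ExpoSmall FlipAll)
open Pool.Agent.Y958.TC (ind Av)
open Pool.Agent.Y958.U (dv)

theorem s_avcb : S_AVCB := avcb Pool.Agent.Y304.U.pw

theorem unif1B (d : ℕ) :
    ∃ c : ℝ, 0 < c ∧ c < 1 ∧ ∀ f : ℕ → ℤ, (∀ n, |f n| ≤ 1) → FlipAll f →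
      ExpoSmall (fun n => (f n : ℂ)) →
      ∀ (V : ℕ → Prop) (A : ℕ), 1 ≤ A → (∀ n, V (n + A) ↔ V n) → 0 < dv V A →
      ∀ (k : ℕ) (x e : Fin k → ℕ), Function.Injective x → (∀ i, e i = 1 ∨ e i = 2) →
        (univ.filter (fun i => e i = 1)).card = d + 1 →
        BZ {N | (1 - c) * dv V A < |Av N (fun n => ind V n * ∏ i, (f (n + x i) : ℝ) ^ e i)|} :=
  mainB s_avcb Pool.Agent.Y304.U.pw
    (Pool.Agent.Y79.U.cube Pool.Agent.Y500.U.sv Pool.Agent.Y904.U.hav) Pool.Agent.Y105.U.box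
    Pool.Agent.Y578.U.alg d

/-- the constant depends only on the number of factors -/
theorem unifB (k : ℕ) :
    ∃ c : ℝ, 0 < c ∧ c < 1 ∧ ∀ f : ℕ → ℤ, (∀ n, |f n| ≤ 1) → FlipAll f →
      ExpoSmall (fun n => (f n : ℂ)) →
      ∀ (V : ℕ → Prop) (A : ℕ), 1 ≤ A → (∀ n, V (n + A) ↔ V n) → 0 < dv V A →
      ∀ (x e : Fin k → ℕ), Function.Injective x → (∀ i, e i = 1 ∨ e i = 2) → (∃ i, e i = 1) →
        BZ {N | (1 - c) * dv V A < |Av N (fun n => ind V n * ∏ i, (f (n + x i) : ℝ) ^ e i)|} := by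
  classical
  choose c hc0 hc1 hc using unif1B
  obtain ⟨c', hc'0, hc'⟩ : ∃ c' : ℝ, 0 < c' ∧ ∀ d ∈ range k, c' ≤ c d := by
    rcases (range k).eq_empty_or_nonempty with h | h
    · exact ⟨1, one_pos, fun d hd => by rw [h] at hd; exact absurd hd (notMem_empty d)⟩
    · obtain ⟨d, hd, hmin⟩ := exists_min_image (range k) c h
      exact ⟨c d, hc0 d, fun d' hd' => hmin d' hd'⟩
  refine ⟨min c' (1 / 2), lt_min hc'0 (by norm_num), lt_of_le_of_lt (min_le_right _ _) (by norm_num), ?_⟩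
  intro f hb hf hE V A hA hV hv x e hx he hex
  obtain ⟨i0, hi0⟩ := hex
  have hpos : 0 < (univ.filter (fun i => e i = 1)).card := card_pos.2 ⟨i0, mem_filter.2 ⟨mem_univ _, hi0⟩⟩
  obtain ⟨d, hd⟩ : ∃ d, (univ.filter (fun i => e i = 1)).card = d + 1 :=
    ⟨(univ.filter (fun i => e i = 1)).card - 1, by omega⟩
  have hdk : d ∈ range k := by
    rw [mem_range]
    have := card_filter_le (univ : Finset (Fin k)) (fun i => e i = 1)
    rw [card_univ, Fintype.card_fin] at this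
    omega
  refine BZ_sub ?_ (hc d f hb hf hE V A hA hV hv k x e hx he hd)
  intro N hN
  simp only [Set.mem_setOf_eq] at hN ⊢
  refine lt_of_le_of_lt ?_ hN
  apply mul_le_mul_of_nonneg_right _ hv.le
  have := (min_le_left c' (1 / 2)).trans (hc' d hdk)
  linarith


end Pool.Agent.W5h34.CB
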