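import Pool.Agent.Y958.U.Aux2
import Pool.Agent.W5h34.CB.BZ

/-!
# The two point theorem in windows
-/

set_option autoImplicit false

namespace Pool.Agent.W5h34.CB

open Finset Filter Topology
open Pool.Agent.TH112.BL (Bd QD win)
open Pool.Agent.TH823.MRS (ExpoSmall FlipAll)
open Pool.Agent.Y958.U (QQ)
open Pool.Agent.Y958.TC hiding two

/-- **two point theorem** for natural averages at almost all scales, with periodic weights -/
theorem twoB (hA : S_AVCB) (f : ℕ → ℤ) (hb : ∀ n, |f n| ≤ 1) (hf : FlipAll f)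
    (hE : ExpoSmall (fun n => (f n : ℂ))) (h : ℕ) (hh : 1 ≤ h) (q : ℕ) (hq : 1 ≤ q) (w : ℕ → ℝ)
    (hw1 : ∀ n, |w n| ≤ 1) (hwq : ∀ n, w (n + q) = w n) (δ : ℝ) (hδ : 0 < δ) :
    BZ {N | δ < |Av N (fun n => w n * f n * f (n + h))|} := by
  classical
  by_contra hcon
  set E : Set ℕ := {N | δ < |Av N (fun n => w n * f n * f (n + h))|} with hEd
  have hLZ0 : BZ (∅ : Set ℕ) := BZ_empty
  obtain ⟨ε', hε', I₀, hAv⟩ := hA E ∅ hcon hLZ0
  have hfr : ∀ n, |(f n : ℝ)| ≤ 1 := by
    intro n; exact_mod_cast hb n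
  haveI : NeZero q := ⟨by omega⟩
  set ε : ℝ := ε' * δ / 12 with hε
  have hε0 : 0 < ε := by positivity
  obtain ⟨I₁, hM3⟩ := mrs3 f hb hE h hh q (ε / 20) (by positivity)
  set η : ℝ := (ε / 30) * ε / 3 with hη
  have hη0 : 0 < η := by positivity
  have hlim : Tendsto (fun i : ℕ => (i : ℝ) / 2 ^ i) atTop (𝓝 0) := by
    have := tendsto_pow_const_div_const_pow_of_one_lt 1 (show (1 : ℝ) < 2 by norm_num)
    simpa using this
  have hlim2 : Tendsto (fun i : ℕ => (12 : ℝ) / 2 ^ i) atTop (𝓝 0) := by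
    have h1 := tendsto_pow_const_div_const_pow_of_one_lt 0 (show (1 : ℝ) < 2 by norm_num)
    have h2 := h1.const_mul 12
    simp only [pow_zero, mul_zero] at h2
    refine h2.congr fun i => ?_
    ring
  obtain ⟨I₂, hI₂⟩ := eventually_atTop.1 (hlim.eventually_lt_const hη0)
  obtain ⟨I₃, hI₃⟩ := eventually_atTop.1 (hlim2.eventually_lt_const hε0)
  set i₀ : ℕ := I₀ + I₁ + I₂ + I₃ + q + 1 with hi₀
  set c : ℕ := 2 * (1 + h) with hc
  set B : ℝ := c * Real.log (Fintype.card (SignType × ZMod q)) / η with hB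
  have hB0 : 0 ≤ B := by
    rw [hB]
    have : 0 ≤ Real.log (Fintype.card (SignType × ZMod q)) := Real.log_natCast_nonneg _
    positivity
  obtain ⟨i₁, hi₁, hS⟩ := sum_inv_large i₀ (by omega) (12 * B / (ε' * δ))
  set S : ℝ := ∑ i ∈ Ico i₀ i₁, (1 : ℝ) / i with hSd
  obtain ⟨𝓤, hU, hmem⟩ := exists_ultra _ (fun M₀ => by
    obtain ⟨M, hM1, hM2, hM3⟩ := hAv i₀ i₁ (by omega) hi₁ M₀
    exact ⟨M, hM1, hM3⟩ : ∀ M₀ : ℕ, ∃ M, M₀ ≤ M ∧ M ∈ {M : ℕ | ε' * S ≤
      ∑ i ∈ Ico i₀ i₁, (1 : ℝ) / i * ∑ p ∈ QQ i, Real.log p / 2 ^ i * (if M / p ∈ E then 1 else 0)})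
  set ψ : ℕ → ℝ := fun n => w n * f n * f (n + h) with hψd
  have hψ : ∀ n, |ψ n| ≤ 1 := by
    intro n
    rw [hψd]
    simp only
    rw [abs_mul, abs_mul]
    calc |w n| * |(f n : ℝ)| * |(f (n + h) : ℝ)| ≤ 1 * 1 * 1 := by
          gcongr
          · exact hw1 n
          · exact hfr n
          · exact hfr _
      _ = 1 := by norm_num
  -- the limit inequality
  have hw0 : ∀ i, ∀ p ∈ QD i (i + 1), 0 ≤ Real.log (p : ℝ) / 2 ^ i := fun i p _ =>
    div_nonneg (Real.log_natCast_nonneg _) (by positivity)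
  have hlimineq : ε' * S ≤ ∑ i ∈ Ico i₀ i₁, (1 : ℝ) / i *
      ∑ p ∈ QD i (i + 1), Real.log p / 2 ^ i * (|sS 𝓤 ψ p| / δ) := by
    have h1 : Tendsto (fun M => ∑ i ∈ Ico i₀ i₁, (1 : ℝ) / i *
        ∑ p ∈ QD i (i + 1), Real.log p / 2 ^ i * (|Av (M / p) ψ| / δ)) 𝓤
        (𝓝 (∑ i ∈ Ico i₀ i₁, (1 : ℝ) / i *
        ∑ p ∈ QD i (i + 1), Real.log p / 2 ^ i * (|sS 𝓤 ψ p| / δ))) := by
      apply tendsto_finsetSum
      intro i _
      apply Tendsto.const_mul
      apply tendsto_finsetSum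
      intro p _
      apply Tendsto.const_mul
      apply Tendsto.div_const
      exact (sS_tendsto 𝓤 hψ p).abs
    apply ge_of_tendsto h1
    filter_upwards [hmem] with M hM
    refine le_trans hM ?_
    apply sum_le_sum
    intro i _
    apply mul_le_mul_of_nonneg_left _ (by positivity)
    apply sum_le_sum
    intro p hp
    apply mul_le_mul_of_nonneg_left _ (hw0 i p hp)
    split_ifs with hME
    · rw [le_div_iff₀ hδ, one_mul]
      exact le_of_lt hME
    · positivity
  -- good scales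
  have hgood : ∀ i ∈ Ico i₀ i₁, Df (um 𝓤 hU) (alp f q) b1 () c i ≤ η * 2 ^ i / i →
      ∑ p ∈ QD i (i + 1), Real.log p / 2 ^ i * (|sS 𝓤 ψ p| / δ) ≤ 3 * ε / δ := by
    intro i hi hD
    rw [mem_Ico] at hi
    set G : ℕ → ℕ → ℝ := fun p n => (f n : ℝ) * w (iv q p * n) * f (n + p * h) with hG
    have hG1 : ∀ p n, |G p n| ≤ 1 := by
      intro p n
      rw [hG]
      simp only
      rw [abs_mul, abs_mul]
      calc |(f n : ℝ)| * |w (iv q p * n)| * |(f (n + p * h) : ℝ)| ≤ 1 * 1 * 1 := by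
            gcongr
            · exact hfr n
            · exact hw1 _
            · exact hfr _
        _ = 1 := by norm_num
    have hqi : q < 2 ^ i := lt_of_le_of_lt (by omega : q ≤ i) Nat.lt_two_pow_self
    have hdec := dec 𝓤 hU (alp f q) c hε0 i (by omega) (hI₂ i (by omega)) hD G hG1 (by
      intro p hp n n' hwin j hj
      have hp2 : p ≤ 2 ^ (i + 1) := by
        unfold QD at hp
        rw [mem_filter, mem_Ioc] at hp
        exact hp.1.2
      have hidx : ∀ t, t < c * 2 ^ i → alp f q (n + t) = alp f q (n' + t) := by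
        intro t ht
        exact congrFun hwin ⟨t, ht⟩
      have h1 : j + p * h < c * 2 ^ i := by
        have h3 : p * (1 + h) ≤ 2 ^ (i + 1) * (1 + h) := Nat.mul_le_mul_right _ hp2
        have h4 : 2 ^ (i + 1) * (1 + h) = c * 2 ^ i := by rw [hc, pow_succ]; ring
        have h5 : p * (1 + h) = p + p * h := by ring
        omega
      have h2 : j < c * 2 ^ i := by omega
      have e1 := alp_f hb (hidx j h2)
      have e2 := alp_f hb (hidx (j + p * h) h1)
      have e3 := alp_mod (hidx j h2)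
      rw [hG]
      simp only
      rw [e1, add_assoc n j, e2, add_assoc n' j, per_congr hwq (Nat.ModEq.mul_left (iv q p) e3)])
      (univ : Finset (Fin 2)) ![0, h] 1 (by simp) ψ hψ (QD i (i + 1)) (Subset.refl _) (by
      intro p hp k hk
      have h0 : ¬ p ∣ k := by simpa using hk 0 (mem_univ _)
      have h1 : ¬ p ∣ k + h := by simpa using hk 1 (mem_univ _)
      have hpp := QDp hp
      have hcop : p.Coprime q := by
        rw [Nat.Prime.coprime_iff_not_dvd hpp]
        intro hd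
        have := Nat.le_of_dvd (by omega) hd
        unfold QD at hp
        rw [mem_filter, mem_Ioc] at hp
        omega
      have hiv := (iv_spec q p hq hcop).2
      rw [hG, hψd]
      simp only
      have e1 : w (iv q p * (p * k)) = w k := by
        apply per_congr hwq
        have := Nat.ModEq.mul_right k hiv
        rw [one_mul, mul_assoc] at this
        exact this
      rw [e1, hf p k hpp h0, show p * k + p * h = p * (k + h) by ring, hf p (k + h) hpp h1]
      push_cast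
      ring)
    have hmr := hM3 i (by omega) 𝓤 hU (fun l n => (f n : ℝ) * w (l * n)) (by
      intro l n
      rw [abs_mul]
      calc |(f n : ℝ)| * |w (l * n)| ≤ 1 * 1 := mul_le_mul (hfr n) (hw1 _) (abs_nonneg _) zero_le_one
        _ = 1 := one_mul 1) (fun p => ⟨iv q p, iv_lt q p hq⟩)
    simp only at hmr
    have h5 : (0 : ℝ) < 2 ^ i := by positivity
    have hI3 := hI₃ i (by omega)
    have hsum : ∑ p ∈ QD i (i + 1), Real.log p / 2 ^ i * |sS 𝓤 ψ p| ≤ 3 * ε := by
      have h6 : ∑ p ∈ QD i (i + 1), Real.log p / 2 ^ i * |sS 𝓤 ψ p| ≤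
          ∑ p ∈ QD i (i + 1), (Real.log p / 2 ^ i * |1 * sS 𝓤 ψ p - (um 𝓤 hU).m (G p)| +
            Real.log p / 2 ^ i * |(um 𝓤 hU).m (G p)|) := by
        apply sum_le_sum
        intro p hp
        rw [← mul_add]
        apply mul_le_mul_of_nonneg_left _ (hw0 i p hp)
        have := abs_sub_abs_le_abs_sub (sS 𝓤 ψ p) ((um 𝓤 hU).m (G p))
        rw [one_mul]
        linarith
      refine h6.trans ?_
      rw [sum_add_distrib]
      have e7 : (6 : ℝ) * ((univ : Finset (Fin 2)).card : ℝ) / 2 ^ i = 12 / 2 ^ i := by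
        rw [card_univ, Fintype.card_fin]; norm_num
      rw [e7] at hdec
      have e8 : (20 : ℝ) * (ε / 20) = ε := by ring
      rw [e8] at hmr
      have h9 : ∑ p ∈ QD i (i + 1), Real.log p / 2 ^ i * |(um 𝓤 hU).m (G p)| ≤ ε := hmr
      linarith
    calc ∑ p ∈ QD i (i + 1), Real.log p / 2 ^ i * (|sS 𝓤 ψ p| / δ) =
          (∑ p ∈ QD i (i + 1), Real.log p / 2 ^ i * |sS 𝓤 ψ p|) / δ := by
          rw [sum_div]
          apply sum_congr rfl
          intro p _
          ring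
      _ ≤ 3 * ε / δ := div_le_div_of_nonneg_right hsum hδ.le
  have hall : ∀ i, ∑ p ∈ QD i (i + 1), Real.log p / 2 ^ i * (|sS 𝓤 ψ p| / δ) ≤ 3 / δ := by
    intro i
    have h5 : (0 : ℝ) < 2 ^ i := by positivity
    have hs1 : ∀ p, |sS 𝓤 ψ p| ≤ 1 := by
      intro p
      apply le_of_tendsto (sS_tendsto 𝓤 hψ p).abs
      filter_upwards with M
      exact Av_bd zero_le_one hψ _
    calc ∑ p ∈ QD i (i + 1), Real.log p / 2 ^ i * (|sS 𝓤 ψ p| / δ) ≤
          ∑ p ∈ QD i (i + 1), Real.log p / 2 ^ i * (1 / δ) := by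
          apply sum_le_sum
          intro p hp
          apply mul_le_mul_of_nonneg_left _ (hw0 i p hp)
          exact div_le_div_of_nonneg_right (hs1 p) hδ.le
      _ = (∑ p ∈ QD i (i + 1), Real.log (p : ℝ)) / 2 ^ i * (1 / δ) := by
          rw [← sum_mul, sum_div]
      _ ≤ 3 * (1 / δ) := by
          apply mul_le_mul_of_nonneg_right _ (by positivity)
          rw [div_le_iff₀ h5]
          exact Pool.Agent.TH575.CW.theta_QD i
      _ = 3 / δ := by ring
  have hbad := bad_sum (um 𝓤 hU) (alp f q) c η hη0 i₀ i₁ (by omega)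
  have hfin : ∑ i ∈ Ico i₀ i₁, (1 : ℝ) / i *
      ∑ p ∈ QD i (i + 1), Real.log p / 2 ^ i * (|sS 𝓤 ψ p| / δ) ≤ 3 * ε / δ * S + 3 / δ * B := by
    rw [← sum_filter_add_sum_filter_not (Ico i₀ i₁)
      (fun i => ¬ Df (um 𝓤 hU) (alp f q) b1 () c i ≤ η * 2 ^ i / i), add_comm]
    apply add_le_add
    · rw [hSd, mul_comm (3 * ε / δ), sum_mul]
      refine le_trans (sum_le_sum (g := fun i : ℕ => (1 : ℝ) / i * (3 * ε / δ)) fun i hi => ?_)
        (sum_le_sum_of_subset_of_nonneg (filter_subset _ _) fun i _ _ => by positivity)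
      rw [mem_filter, not_not] at hi
      exact mul_le_mul_of_nonneg_left (hgood i hi.1 hi.2) (by positivity)
    · refine le_trans (sum_le_sum fun i _ =>
        mul_le_mul_of_nonneg_left (hall i) (by positivity : (0 : ℝ) ≤ 1 / (i : ℝ))) ?_
      rw [← sum_mul, mul_comm]
      exact mul_le_mul_of_nonneg_left hbad (by positivity)
  have h1 := hlimineq.trans hfin
  have h2 : 3 * ε / δ = ε' / 4 := by
    rw [hε]; field_simp; ring
  rw [h2] at h1
  have hS0 : 0 < S := by
    refine lt_of_le_of_lt ?_ hS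
    positivity
  have h3 : 3 / δ * B < ε' / 4 * S := by
    rw [div_lt_iff₀ (by positivity)] at hS
    rw [div_mul_eq_mul_div, div_lt_iff₀ hδ]
    nlinarith
  nlinarith


open Pool.Agent.Y958.U (E2 V_congr)

lemma E2_BZ (hA : S_AVCB) (f : ℕ → ℤ) (hb : ∀ n, |f n| ≤ 1) (hf : FlipAll f)
    (hE : ExpoSmall (fun n => (f n : ℂ))) (V : ℕ → Prop) (A R : ℕ) (hA1 : 1 ≤ A)
    (hV : ∀ n, V (n + A) ↔ V n) (hR : 1 ≤ R) (δ : ℝ) (hδ : 0 < δ) : BZ (E2 f V A R δ) := by
  apply BZ_fin
  intro a _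
  apply twoB hA f hb hf hE R hR A hA1 (fun n => ind V (n + a)) _ _ δ hδ
  · intro n
    unfold ind
    split_ifs <;> norm_num
  · intro n
    apply Pool.Agent.Y958.U.ind_at
    rw [show n + A + a = n + a + A by ring]
    exact hV (n + a)


end Pool.Agent.W5h34.CB
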